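import Pool.Agent.Lib.MP_e65231_co.Defs

/-!
# Module ASM (MP_e65231_co): from matchings between consecutive levels to antichains
-/

noncomputable section

open scoped Classical FinsetFamily
open Finset

namespace Pool.Agent.HamSp

variable {α : Type*} [Fintype α] [DecidableEq α]

omit [Fintype α] in
theorem asm_down (P : Finset α → Prop) (K : ℕ)
    (hdown : ∀ m, K < m → ∀ B : Finset (Finset α), (∀ H ∈ B, P H ∧ H.card = m) →
      B.card ≤ (dsh P B).card) (t : ℕ) :
    ∀ A : Finset (Finset α), (∀ H ∈ A, P H ∧ H.card ≤ K + t) →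
    (∀ H ∈ A, ∀ H' ∈ A, H ⊆ H' → H = H') →
    ∃ A' : Finset (Finset α), (∀ H ∈ A', P H ∧ H.card ≤ K) ∧
      (∀ H ∈ A', ∀ H' ∈ A', H ⊆ H' → H = H') ∧ A.card ≤ A'.card := by
  induction t with
  | zero =>
    intro A hA hanti
    exact ⟨A, hA, hanti, le_refl _⟩
  | succ t ih =>
    intro A hA hanti
    set B := A.filter (fun H => H.card = K + (t + 1)) with hB
    set C := A.filter (fun H => ¬ H.card = K + (t + 1)) with hC
    have hBmem : ∀ H, H ∈ B ↔ H ∈ A ∧ H.card = K + (t + 1) := fun H => by rw [hB, mem_filter]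
    have hCmem : ∀ H, H ∈ C ↔ H ∈ A ∧ ¬ H.card = K + (t + 1) := fun H => by rw [hC, mem_filter]
    have hD : ∀ G ∈ dsh P B, P G ∧ ∃ H ∈ B, G ⊆ H ∧ G.card + 1 = H.card := by
      intro G hG
      unfold dsh at hG
      rw [mem_filter, mem_shadow_iff] at hG
      obtain ⟨⟨H, hH, a, ha, rfl⟩, hP⟩ := hG
      refine ⟨hP, H, hH, erase_subset _ _, ?_⟩
      rw [card_erase_of_mem ha]
      have : 0 < H.card := card_pos.2 ⟨a, ha⟩
      omega
    have hcross : ∀ G ∈ dsh P B, ∀ H ∈ C, ¬ H ⊆ G := by
      intro G hG H hH hsub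
      obtain ⟨_, H0, hH0, hG0, _⟩ := hD G hG
      have h1 := hanti H ((hCmem H).1 hH).1 H0 ((hBmem H0).1 hH0).1 (hsub.trans hG0)
      rw [h1] at hH
      exact ((hCmem H0).1 hH).2 ((hBmem H0).1 hH0).2
    have hCD : Disjoint C (dsh P B) := by
      rw [Finset.disjoint_left]
      intro H hH hH'
      exact hcross H hH' H hH (Finset.Subset.refl _)
    have hcard : A.card ≤ (C ∪ dsh P B).card := by
      have h1 : B.card + C.card = A.card := card_filter_add_card_filter_not _
      have h2 := hdown (K + (t + 1)) (by omega) B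
        (fun H hH => ⟨(hA H ((hBmem H).1 hH).1).1, ((hBmem H).1 hH).2⟩)
      rw [card_union_of_disjoint hCD]
      omega
    have hP1 : ∀ H ∈ C ∪ dsh P B, P H ∧ H.card ≤ K + t := by
      intro H hH
      rw [mem_union] at hH
      rcases hH with hH | hH
      · have h1 := (hCmem H).1 hH
        have h2 := hA H h1.1
        exact ⟨h2.1, by omega⟩
      · obtain ⟨h1, H0, hH0, _, h2⟩ := hD H hH
        have h3 := ((hBmem H0).1 hH0).2
        exact ⟨h1, by omega⟩
    have hP2 : ∀ H ∈ C ∪ dsh P B, ∀ H' ∈ C ∪ dsh P B, H ⊆ H' → H = H' := by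
      intro H hH H' hH' hsub
      rw [mem_union] at hH hH'
      rcases hH with hH | hH <;> rcases hH' with hH' | hH'
      · exact hanti H ((hCmem H).1 hH).1 H' ((hCmem H').1 hH').1 hsub
      · exact absurd hsub (hcross H' hH' H hH)
      · obtain ⟨h1, H0, hH0, _, h2⟩ := hD H hH
        have h3 := ((hBmem H0).1 hH0).2
        have h4 := (hCmem H').1 hH'
        have h5 := hA H' h4.1
        refine eq_of_subset_of_card_le hsub ?_
        omega
      · obtain ⟨_, H0, hH0, _, h2⟩ := hD H hH
        obtain ⟨_, H1, hH1, _, h4⟩ := hD H' hH'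
        have h3 := ((hBmem H0).1 hH0).2
        have h5 := ((hBmem H1).1 hH1).2
        refine eq_of_subset_of_card_le hsub ?_
        omega
    obtain ⟨A', h1, h2, h3⟩ := ih (C ∪ dsh P B) hP1 hP2
    exact ⟨A', h1, h2, hcard.trans h3⟩

theorem asm_up_card (k : ℕ) (hk : 2 * k + 1 ≤ Fintype.card α) (B : Finset (Finset α))
    (hB : ∀ H ∈ B, H.card = k) :
    B.card ≤ (univ.filter (fun H : Finset α => H.card = k + 1 ∧ ∃ G ∈ B, G ⊆ H)).card := by
  set U := univ.filter (fun H : Finset α => H.card = k + 1 ∧ ∃ G ∈ B, G ⊆ H) with hU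
  have h := Finset.card_mul_le_card_mul (s := B) (t := U) (m := k + 1) (n := k + 1)
    (fun G H => G ⊆ H) ?_ ?_
  · exact Nat.le_of_mul_le_mul_right h (Nat.succ_pos k)
  · intro G hG
    have hinj : Set.InjOn (fun a => insert a G) ((univ \ G : Finset α) : Set α) := by
      intro a ha b hb hab
      rw [mem_coe, mem_sdiff] at ha hb
      have h1 : a ∈ insert b G := by
        have h2 : a ∈ insert a G := mem_insert_self _ _
        simp only at hab
        rwa [hab] at h2
      rw [mem_insert] at h1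
      exact h1.resolve_right ha.2
    have hc : ((univ \ G).image (fun a => insert a G)).card = Fintype.card α - k := by
      rw [card_image_of_injOn hinj, card_sdiff_of_subset (subset_univ _), card_univ, hB G hG]
    have hsub : (univ \ G).image (fun a => insert a G) ⊆ U.bipartiteAbove (fun G H => G ⊆ H) G := by
      intro H hH
      rw [mem_image] at hH
      obtain ⟨a, ha, rfl⟩ := hH
      rw [mem_sdiff] at ha
      rw [mem_bipartiteAbove, hU, mem_filter]
      exact ⟨⟨mem_univ _, by rw [card_insert_of_notMem ha.2, hB G hG], G, hG, subset_insert _ _⟩,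
        subset_insert _ _⟩
    have := card_le_card hsub
    rw [hc] at this
    omega
  · intro H hH
    rw [hU, mem_filter] at hH
    have hsub : B.bipartiteBelow (fun G H => G ⊆ H) H ⊆ powersetCard k H := by
      intro G hG
      rw [mem_bipartiteBelow] at hG
      rw [mem_powersetCard]
      exact ⟨hG.2, hB G hG.1⟩
    have := card_le_card hsub
    rw [card_powersetCard, hH.2.1, Nat.choose_succ_self_right] at this
    exact this

theorem asm_up (P : Finset α → Prop) (hup : ∀ S T, S ⊆ T → P S → P T) (K : ℕ)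
    (hK : 2 * K ≤ Fintype.card α + 1) (t : ℕ) (ht : t ≤ K) :
    ∀ A : Finset (Finset α), (∀ H ∈ A, P H ∧ H.card ≤ K ∧ K ≤ H.card + t) →
    (∀ H ∈ A, ∀ H' ∈ A, H ⊆ H' → H = H') →
    A.card ≤ (univ.filter (fun H : Finset α => P H ∧ H.card = K)).card := by
  induction t with
  | zero =>
    intro A hA _
    apply card_le_card
    intro H hH
    rw [mem_filter]
    have := hA H hH
    exact ⟨mem_univ _, this.1, by omega⟩
  | succ t ih =>
    intro A hA hanti
    set k := K - (t + 1) with hk
    set B := A.filter (fun H => H.card = k) with hB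
    set C := A.filter (fun H => ¬ H.card = k) with hC
    set U := univ.filter (fun H : Finset α => H.card = k + 1 ∧ ∃ G ∈ B, G ⊆ H) with hU
    have hBmem : ∀ H, H ∈ B ↔ H ∈ A ∧ H.card = k := fun H => by rw [hB, mem_filter]
    have hCmem : ∀ H, H ∈ C ↔ H ∈ A ∧ ¬ H.card = k := fun H => by rw [hC, mem_filter]
    have hUmem : ∀ H, H ∈ U ↔ H.card = k + 1 ∧ ∃ G ∈ B, G ⊆ H := fun H => by
      rw [hU, mem_filter]
      exact ⟨fun h => h.2, fun h => ⟨mem_univ _, h⟩⟩
    have hcross : ∀ G ∈ U, ∀ H ∈ C, ¬ G ⊆ H := by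
      intro G hG H hH hsub
      obtain ⟨_, G0, hG0, hsub0⟩ := (hUmem G).1 hG
      have h1 := hanti G0 ((hBmem G0).1 hG0).1 H ((hCmem H).1 hH).1 (hsub0.trans hsub)
      rw [← h1] at hH
      exact ((hCmem G0).1 hH).2 ((hBmem G0).1 hG0).2
    have hCU : Disjoint C U := by
      rw [Finset.disjoint_left]
      intro H hH hH'
      exact hcross H hH' H hH (Finset.Subset.refl _)
    have hcard : A.card ≤ (C ∪ U).card := by
      have h1 : B.card + C.card = A.card := card_filter_add_card_filter_not _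
      have h2 : B.card ≤ U.card := asm_up_card k (by omega) B (fun H hH => ((hBmem H).1 hH).2)
      rw [card_union_of_disjoint hCU]
      omega
    refine hcard.trans (ih (by omega) (C ∪ U) ?_ ?_)
    · intro H hH
      rw [mem_union] at hH
      rcases hH with hH | hH
      · have h1 := (hCmem H).1 hH
        have h2 := hA H h1.1
        exact ⟨h2.1, h2.2.1, by omega⟩
      · obtain ⟨h1, G, hG, hsub⟩ := (hUmem H).1 hH
        exact ⟨hup G H hsub (hA G ((hBmem G).1 hG).1).1, by omega, by omega⟩
    · intro H hH H' hH' hsub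
      rw [mem_union] at hH hH'
      rcases hH with hH | hH <;> rcases hH' with hH' | hH'
      · exact hanti H ((hCmem H).1 hH).1 H' ((hCmem H').1 hH').1 hsub
      · obtain ⟨h1, _⟩ := (hUmem H').1 hH'
        have h2 := (hCmem H).1 hH
        have h3 := hA H h2.1
        refine eq_of_subset_of_card_le hsub ?_
        omega
      · exact absurd hsub (hcross H hH H' hH')
      · obtain ⟨h1, _⟩ := (hUmem H).1 hH
        obtain ⟨h2, _⟩ := (hUmem H').1 hH'
        refine eq_of_subset_of_card_le hsub ?_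
        omega

theorem antichain_le (P : Finset α → Prop) (hup : ∀ S T, S ⊆ T → P S → P T) (K : ℕ)
    (hK : 2 * K ≤ Fintype.card α + 1)
    (hdown : ∀ m, K < m → ∀ B : Finset (Finset α), (∀ H ∈ B, P H ∧ H.card = m) →
      B.card ≤ (dsh P B).card)
    (A : Finset (Finset α)) (hA : ∀ H ∈ A, P H)
    (hanti : IsAntichain (· ⊆ ·) (A : Set (Finset α))) :
    A.card ≤ (univ.filter (fun H : Finset α => P H ∧ H.card = K)).card := by
  obtain ⟨A', h1, h2, h3⟩ := asm_down P K hdown (Fintype.card α) A
    (fun H hH => ⟨hA H hH, (card_le_univ H).trans (Nat.le_add_left _ _)⟩)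
    (fun H hH H' hH' hsub => by
      by_contra hne
      exact hanti (mem_coe.2 hH) (mem_coe.2 hH') hne hsub)
  exact h3.trans (asm_up P hup K hK K (le_refl _) A'
    (fun H hH => ⟨(h1 H hH).1, (h1 H hH).2, Nat.le_add_left _ _⟩) h2)

end Pool.Agent.HamSp
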