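import Pool.Agent.Lib.MP_e65231_co.Crit

/-!
# Few graphs have a critical edge (MP_e65231_co, module CNT)
-/

noncomputable section

open scoped Classical FinsetFamily
open Finset

namespace Pool.Agent.HamSp

theorem count_small {α : Type*} [Fintype α] [DecidableEq α] (W : Finset α) (D : ℕ) :
    ((univ.filter (fun S : Finset α => (S ∩ W).card ≤ D)).card : ℝ) ≤
      9 ^ D * (5 / 9 : ℝ) ^ W.card * 2 ^ (Fintype.card α) := by
  have h1 : ((univ.filter (fun S : Finset α => (S ∩ W).card ≤ D)).card : ℝ) ≤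
      ∑ S : Finset α, (9 : ℝ) ^ D * (1 / 9 : ℝ) ^ (S ∩ W).card := by
    rw [Finset.card_filter]
    push_cast
    apply Finset.sum_le_sum
    intro S _
    split_ifs with h
    · have h2 : (1 / 9 : ℝ) ^ D ≤ (1 / 9 : ℝ) ^ (S ∩ W).card :=
        pow_le_pow_of_le_one (by norm_num) (by norm_num) h
      calc (1 : ℝ) = (9 : ℝ) ^ D * (1 / 9 : ℝ) ^ D := by
            rw [← mul_pow]; norm_num
        _ ≤ _ := mul_le_mul_of_nonneg_left h2 (by positivity)
    · positivity
  refine h1.trans (le_of_eq ?_)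
  rw [← Finset.mul_sum]
  have h3 : ∑ S : Finset α, (1 / 9 : ℝ) ^ (S ∩ W).card =
      ∏ a : α, (1 + if a ∈ W then (1 / 9 : ℝ) else 1) := by
    rw [Finset.prod_one_add]
    rw [Finset.powerset_univ]
    apply Finset.sum_congr rfl
    intro S _
    rw [Finset.prod_ite, Finset.prod_const, Finset.prod_const_one, mul_one]
    congr 2
  rw [h3]
  have h4 : ∏ a : α, (1 + if a ∈ W then (1 / 9 : ℝ) else 1) =
      ∏ a : α, (2 * if a ∈ W then (5 / 9 : ℝ) else 1) := by
    apply Finset.prod_congr rfl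
    intro a _
    split_ifs <;> norm_num
  rw [h4, Finset.prod_mul_distrib, Finset.prod_const, Finset.prod_ite, Finset.prod_const,
    Finset.prod_const_one, mul_one, Finset.card_univ]
  have h5 : (univ.filter (fun a => a ∈ W)) = W := by ext; simp
  rw [h5]
  ring

/-- slots at a vertex -/
def star {n : ℕ} (v : Fin n) : Finset (Slot n) := univ.filter (fun e : Slot n => v ∈ e.1)

/-- slots between two sets of vertices -/
def betw {n : ℕ} (A B : Finset (Fin n)) : Finset (Slot n) :=
  univ.filter (fun e : Slot n => ∃ a ∈ A, ∃ b ∈ B, e.1 = s(a, b))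

lemma card_star {n : ℕ} (v : Fin n) : n - 1 ≤ (star v).card := by
  have h1 : ((univ.erase v).image (fun w => s(v, w))).card = n - 1 := by
    rw [Finset.card_image_of_injOn, Finset.card_erase_of_mem (Finset.mem_univ v),
      Finset.card_univ, Fintype.card_fin]
    intro a _ b _ h
    exact Sym2.congr_right.mp h
  rw [← h1, ← Finset.card_image_of_injective (star v) Subtype.val_injective]
  apply Finset.card_le_card
  intro e he
  rw [Finset.mem_image] at he ⊢
  obtain ⟨w, hw, rfl⟩ := he
  have hw' : w ≠ v := (Finset.mem_erase.mp hw).1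
  refine ⟨⟨s(v, w), ?_⟩, ?_, rfl⟩
  · rw [Sym2.mk_isDiag_iff]
    exact fun h => hw' h.symm
  · simp [star]

lemma card_star_inter {n : ℕ} (S : Finset (Slot n)) (v : Fin n) :
    (S ∩ star v).card ≤ (univ.filter (fun w => (gr S).Adj v w)).card := by
  rw [← Finset.card_image_of_injective (S ∩ star v) Subtype.val_injective]
  refine le_trans ?_ (Finset.card_image_le (s := univ.filter (fun w => (gr S).Adj v w))
    (f := fun w => s(v, w)))
  apply Finset.card_le_card
  intro e he
  rw [Finset.mem_image] at he ⊢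
  obtain ⟨e, he, rfl⟩ := he
  rw [Finset.mem_inter] at he
  have hv : v ∈ e.1 := by
    have := he.2
    simpa [star] using this
  obtain ⟨w, hw⟩ := hv
  refine ⟨w, ?_, hw.symm⟩
  rw [Finset.mem_filter]
  exact ⟨Finset.mem_univ _, e, he.1, hw⟩

lemma card_betw {n : ℕ} (A B : Finset (Fin n)) (h : Disjoint A B) :
    A.card * B.card ≤ (betw A B).card := by
  have h1 : ((A ×ˢ B).image (fun p => s(p.1, p.2))).card = A.card * B.card := by
    rw [Finset.card_image_of_injOn, Finset.card_product]
    rintro ⟨a, b⟩ hp ⟨a', b'⟩ hq hh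
    simp only [Finset.coe_product, Set.mem_prod, Finset.mem_coe] at hp hq
    rcases Sym2.eq_iff.mp hh with h2 | h2
    · exact Prod.ext h2.1 h2.2
    · exfalso
      have h4 : a = b' := h2.1
      have h3 : a ∈ B := by rw [h4]; exact hq.2
      exact (Finset.disjoint_left.mp h) hp.1 h3
  rw [← h1, ← Finset.card_image_of_injective (betw A B) Subtype.val_injective]
  apply Finset.card_le_card
  intro e he
  rw [Finset.mem_image] at he ⊢
  obtain ⟨⟨a, b⟩, hp, rfl⟩ := he
  rw [Finset.mem_product] at hp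
  have hne : a ≠ b := by
    rintro rfl
    exact (Finset.disjoint_left.mp h) hp.1 hp.2
  refine ⟨⟨s(a, b), ?_⟩, ?_, rfl⟩
  · rw [Sym2.mk_isDiag_iff]
    exact hne
  · simp only [betw, Finset.mem_filter, Finset.mem_univ, true_and]
    exact ⟨a, hp.1, b, hp.2, rfl⟩

/-- a graph with a critical edge has a vertex of small degree or two sets with at most one edge
between them -/
lemma crit_cases {n d : ℕ} (hn : 3 ≤ n) (hd : 1 ≤ d) (S : Finset (Slot n))
    (hc : 1 ≤ (crit Ham S).card) :
    (∃ v, (S ∩ star v).card ≤ 2 * d) ∨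
      (∃ A B : Finset (Fin n), Disjoint A B ∧ A.card = d ∧ B.card = d ∧
        (S ∩ betw A B).card ≤ 1) := by
  have : Nonempty (Fin n) := ⟨⟨0, by omega⟩⟩
  obtain ⟨e, he⟩ := Finset.card_pos.mp hc
  rw [crit, Finset.mem_filter] at he
  obtain ⟨heS, hne⟩ := he
  by_contra hcon
  push Not at hcon
  obtain ⟨h1, h2⟩ := hcon
  apply hne
  apply ham_criterion (gr (S.erase e)) d hd
  · intro v
    refine le_trans ?_ (card_star_inter (S.erase e) v)
    have h3 := h1 v
    have h4 : S ∩ star v ⊆ insert e ((S.erase e) ∩ star v) := by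
      intro x hx
      rw [Finset.mem_inter] at hx
      rw [Finset.mem_insert, Finset.mem_inter, Finset.mem_erase]
      by_cases hxe : x = e
      · exact Or.inl hxe
      · exact Or.inr ⟨⟨hxe, hx.1⟩, hx.2⟩
    have h5 := (Finset.card_le_card h4).trans (Finset.card_insert_le _ _)
    omega
  · intro A B hAB hA hB
    by_contra hno
    push Not at hno
    have h3 := h2 A B hAB hA hB
    have h4 : S ∩ betw A B ⊆ {e} := by
      intro x hx
      rw [Finset.mem_inter] at hx
      rw [Finset.mem_singleton]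
      by_contra hxe
      have h5 := hx.2
      simp only [betw, Finset.mem_filter, Finset.mem_univ, true_and] at h5
      obtain ⟨a, ha, b, hb, hab⟩ := h5
      apply hno a ha b hb
      exact ⟨x, Finset.mem_erase.mpr ⟨hxe, hx.1⟩, hab⟩
    have h5 := Finset.card_le_card h4
    rw [Finset.card_singleton] at h5
    omega

theorem count_crit {n d : ℕ} (hn : 3 ≤ n) (hd : 1 ≤ d) :
    ((univ.filter (fun S : Finset (Slot n) => Ham S ∧ 1 ≤ (crit Ham S).card)).card : ℝ) ≤
      (n * 9 ^ (2 * d) * (5 / 9 : ℝ) ^ (n - 1) + 4 ^ n * 9 * (5 / 9 : ℝ) ^ (d ^ 2)) *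
        2 ^ (n.choose 2) := by
  have hslot : Fintype.card (Slot n) = n.choose 2 := by
    rw [Sym2.card_subtype_not_diag, Fintype.card_fin]
  -- the pairs of disjoint sets of size `d`
  let Q : Finset (Finset (Fin n) × Finset (Fin n)) :=
    univ.filter (fun q => Disjoint q.1 q.2 ∧ q.1.card = d ∧ q.2.card = d)
  have hsub : (univ.filter (fun S : Finset (Slot n) => Ham S ∧ 1 ≤ (crit Ham S).card)) ⊆
      ((univ : Finset (Fin n)).biUnion
        (fun v => univ.filter (fun S : Finset (Slot n) => (S ∩ star v).card ≤ 2 * d))) ∪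
      (Q.biUnion
        (fun q => univ.filter (fun S : Finset (Slot n) => (S ∩ betw q.1 q.2).card ≤ 1))) := by
    intro S hS
    rw [Finset.mem_filter] at hS
    rw [Finset.mem_union, Finset.mem_biUnion, Finset.mem_biUnion]
    rcases crit_cases hn hd S hS.2.2 with ⟨v, hv⟩ | ⟨A, B, h1, h2, h3, h4⟩
    · left
      exact ⟨v, Finset.mem_univ _, Finset.mem_filter.mpr ⟨Finset.mem_univ _, hv⟩⟩
    · right
      exact ⟨(A, B), Finset.mem_filter.mpr ⟨Finset.mem_univ _, h1, h2, h3⟩,
        Finset.mem_filter.mpr ⟨Finset.mem_univ _, h4⟩⟩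
  have hA : ((((univ : Finset (Fin n)).biUnion
        (fun v => univ.filter (fun S : Finset (Slot n) => (S ∩ star v).card ≤ 2 * d)))).card : ℝ) ≤
      n * 9 ^ (2 * d) * (5 / 9 : ℝ) ^ (n - 1) * 2 ^ (n.choose 2) := by
    have h1 : ((((univ : Finset (Fin n)).biUnion
        (fun v => univ.filter (fun S : Finset (Slot n) => (S ∩ star v).card ≤ 2 * d)))).card : ℝ) ≤
        ∑ v : Fin n, (((univ.filter
          (fun S : Finset (Slot n) => (S ∩ star v).card ≤ 2 * d))).card : ℝ) := by
      exact_mod_cast Finset.card_biUnion_le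
    refine h1.trans ?_
    have h2 : ∀ v ∈ (univ : Finset (Fin n)), (((univ.filter
          (fun S : Finset (Slot n) => (S ∩ star v).card ≤ 2 * d))).card : ℝ) ≤
        9 ^ (2 * d) * (5 / 9 : ℝ) ^ (n - 1) * 2 ^ (n.choose 2) := by
      intro v _
      refine (count_small (star v) (2 * d)).trans ?_
      rw [hslot]
      have h3 : (5 / 9 : ℝ) ^ (star v).card ≤ (5 / 9 : ℝ) ^ (n - 1) :=
        pow_le_pow_of_le_one (by norm_num) (by norm_num) (card_star v)
      gcongr
    refine (Finset.sum_le_card_nsmul _ _ _ h2).trans (le_of_eq ?_)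
    rw [Finset.card_univ, Fintype.card_fin, nsmul_eq_mul]
    ring
  have hB : (((Q.biUnion
        (fun q => univ.filter (fun S : Finset (Slot n) => (S ∩ betw q.1 q.2).card ≤ 1)))).card : ℝ) ≤
      4 ^ n * 9 * (5 / 9 : ℝ) ^ (d ^ 2) * 2 ^ (n.choose 2) := by
    have h1 : (((Q.biUnion
        (fun q => univ.filter (fun S : Finset (Slot n) => (S ∩ betw q.1 q.2).card ≤ 1)))).card : ℝ) ≤
        ∑ q ∈ Q, (((univ.filter
          (fun S : Finset (Slot n) => (S ∩ betw q.1 q.2).card ≤ 1))).card : ℝ) := by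
      exact_mod_cast Finset.card_biUnion_le
    refine h1.trans ?_
    have h2 : ∀ q ∈ Q, (((univ.filter
          (fun S : Finset (Slot n) => (S ∩ betw q.1 q.2).card ≤ 1))).card : ℝ) ≤
        9 * (5 / 9 : ℝ) ^ (d ^ 2) * 2 ^ (n.choose 2) := by
      intro q hq
      obtain ⟨-, h3, h4, h5⟩ := Finset.mem_filter.mp hq
      refine (count_small (betw q.1 q.2) 1).trans ?_
      rw [hslot]
      have h6 := card_betw q.1 q.2 h3
      rw [h4, h5, ← sq] at h6
      have h7 : (5 / 9 : ℝ) ^ (betw q.1 q.2).card ≤ (5 / 9 : ℝ) ^ (d ^ 2) :=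
        pow_le_pow_of_le_one (by norm_num) (by norm_num) h6
      rw [pow_one]
      gcongr
    refine (Finset.sum_le_card_nsmul _ _ _ h2).trans ?_
    have hQ : (Q.card : ℝ) ≤ 4 ^ n := by
      have h8 : Q.card ≤ 4 ^ n := by
        refine (Finset.card_filter_le _ _).trans (le_of_eq ?_)
        rw [Finset.card_univ, Fintype.card_prod, Fintype.card_finset, Fintype.card_fin,
          ← mul_pow]
        norm_num
      exact_mod_cast h8
    rw [nsmul_eq_mul]
    have h9 : (0 : ℝ) ≤ 9 * (5 / 9 : ℝ) ^ (d ^ 2) * 2 ^ (n.choose 2) := by positivity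
    calc (Q.card : ℝ) * (9 * (5 / 9 : ℝ) ^ (d ^ 2) * 2 ^ (n.choose 2))
        ≤ 4 ^ n * (9 * (5 / 9 : ℝ) ^ (d ^ 2) * 2 ^ (n.choose 2)) :=
          mul_le_mul_of_nonneg_right hQ h9
      _ = _ := by ring
  have h1 : ((univ.filter (fun S : Finset (Slot n) => Ham S ∧ 1 ≤ (crit Ham S).card)).card : ℝ) ≤
      ((((univ : Finset (Fin n)).biUnion
        (fun v => univ.filter (fun S : Finset (Slot n) => (S ∩ star v).card ≤ 2 * d)))).card : ℝ) +
      (((Q.biUnion
        (fun q => univ.filter
          (fun S : Finset (Slot n) => (S ∩ betw q.1 q.2).card ≤ 1)))).card : ℝ) := by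
    exact_mod_cast (Finset.card_le_card hsub).trans (Finset.card_union_le _ _)
  refine h1.trans ((add_le_add hA hB).trans (le_of_eq ?_))
  ring

end Pool.Agent.HamSp
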