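import Pool.Agent.Lib.MP_e65231_co.Defs

/-!
# A Hamiltonicity criterion (MP_e65231_co, module HC)

Minimum degree at least `2 d`, and any two disjoint `d`-sets joined by an edge: the graph is
Hamiltonian (longest path and one rotation at each end).
-/

noncomputable section

open scoped Classical
open Finset

namespace Pool.Agent.HamSp

namespace HC

theorem split_lemma (d : ℕ) (hd : 1 ≤ d) (I J : Finset ℕ) (hI : 2 * d ≤ I.card)
    (hJ : 2 * d ≤ J.card) :
    (∃ I' ⊆ I, ∃ J' ⊆ J, I'.card = d ∧ J'.card = d ∧ ∀ i ∈ I', ∀ j ∈ J', i ≤ j) ∨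
    (∃ I' ⊆ I, ∃ J' ⊆ J, I'.card = d ∧ J'.card = d ∧ ∀ i ∈ I', ∀ j ∈ J', j < i) := by
  have hex : ∃ t, d ≤ (I.filter (· ≤ t)).card ∨ d ≤ (J.filter (· ≤ t)).card := by
    refine ⟨I.sup id, Or.inl ?_⟩
    rw [Finset.filter_true_of_mem]
    · omega
    · intro x hx
      exact Finset.le_sup (f := id) hx
  obtain ⟨t, ht, hmin⟩ : ∃ t, (d ≤ (I.filter (· ≤ t)).card ∨ d ≤ (J.filter (· ≤ t)).card) ∧
      ∀ s < t, ¬ (d ≤ (I.filter (· ≤ s)).card ∨ d ≤ (J.filter (· ≤ s)).card) :=
    ⟨Nat.find hex, Nat.find_spec hex, fun s hs => Nat.find_min hex hs⟩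
  have hJlt : (J.filter (· < t)).card < d := by
    rcases Nat.eq_zero_or_pos t with h0 | hpos
    · subst h0
      simp only [Nat.not_lt_zero, Finset.filter_false, Finset.card_empty]
      omega
    · have := hmin (t - 1) (by omega)
      push Not at this
      refine lt_of_le_of_lt (Finset.card_le_card ?_) this.2
      intro x hx
      rw [Finset.mem_filter] at hx ⊢
      exact ⟨hx.1, by omega⟩
  by_cases ha : d ≤ (I.filter (· ≤ t)).card
  · left
    obtain ⟨I', hI', hI'c⟩ := Finset.exists_subset_card_eq ha
    have hb : d ≤ (J.filter (fun x => ¬ x < t)).card := by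
      have := Finset.card_filter_add_card_filter_not (s := J) (· < t)
      omega
    obtain ⟨J', hJ', hJ'c⟩ := Finset.exists_subset_card_eq hb
    refine ⟨I', hI'.trans (Finset.filter_subset _ _), J', hJ'.trans (Finset.filter_subset _ _),
      hI'c, hJ'c, fun i hi j hj => ?_⟩
    have h1 := (Finset.mem_filter.1 (hI' hi)).2
    have h2 := (Finset.mem_filter.1 (hJ' hj)).2
    omega
  · right
    have hb : d ≤ (J.filter (· ≤ t)).card := by
      rcases ht with h | h
      · exact absurd h ha
      · exact h
    obtain ⟨J', hJ', hJ'c⟩ := Finset.exists_subset_card_eq hb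
    have hc : d ≤ (I.filter (fun x => ¬ x ≤ t)).card := by
      have := Finset.card_filter_add_card_filter_not (s := I) (· ≤ t)
      omega
    obtain ⟨I', hI', hI'c⟩ := Finset.exists_subset_card_eq hc
    refine ⟨I', hI'.trans (Finset.filter_subset _ _), J', hJ'.trans (Finset.filter_subset _ _),
      hI'c, hJ'c, fun i hi j hj => ?_⟩
    have h1 := (Finset.mem_filter.1 (hI' hi)).2
    have h2 := (Finset.mem_filter.1 (hJ' hj)).2
    omega

variable {V : Type*} (G : SimpleGraph V)

/-- a path, as the list of its vertices -/
def Pth (l : List V) : Prop := l.Nodup ∧ l.IsChain G.Adj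

/-- a closed path, as the list of its vertices -/
def Cl (l : List V) : Prop :=
  l.Nodup ∧ l.IsChain G.Adj ∧ ∀ x ∈ l.getLast?, ∀ y ∈ l.head?, G.Adj x y

variable {G}

theorem chain_rev {l : List V} (h : l.IsChain G.Adj) : l.reverse.IsChain G.Adj := by
  rw [List.isChain_reverse]
  have : (fun a b => G.Adj b a) = G.Adj := by
    funext a b
    exact propext (G.adj_comm b a)
  rw [this]
  exact h

theorem cl_one {A B C : List V} (h : Pth G (A ++ B ++ C)) (hA : A ≠ []) (hB : B ≠ [])
    (hC : C ≠ [])
    (h1 : ∀ x ∈ A.head?, ∀ y ∈ B.head?, G.Adj x y)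
    (h2 : ∀ x ∈ B.getLast?, ∀ y ∈ C.getLast?, G.Adj x y)
    (h3 : ∀ x ∈ C.head?, ∀ y ∈ A.getLast?, G.Adj x y) :
    Cl G (A.reverse ++ B ++ C.reverse) := by
  obtain ⟨hn, hc⟩ := h
  rw [List.isChain_append, List.isChain_append] at hc
  obtain ⟨⟨cA, cB, -⟩, cC, -⟩ := hc
  refine ⟨?_, ?_, ?_⟩
  · have hp : (A.reverse ++ B ++ C.reverse).Perm (A ++ B ++ C) :=
      ((List.reverse_perm A).append_right B).append (List.reverse_perm C)
    exact hp.nodup_iff.2 hn
  · rw [List.isChain_append, List.isChain_append]
    refine ⟨⟨chain_rev cA, cB, ?_⟩, chain_rev cC, ?_⟩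
    · intro x hx y hy
      rw [List.getLast?_reverse] at hx
      exact h1 x hx y hy
    · intro x hx y hy
      rw [List.head?_reverse] at hy
      rw [List.getLast?_append] at hx
      obtain ⟨b, hb⟩ : ∃ b, B.getLast? = some b := ⟨B.getLast hB, List.getLast?_eq_some_getLast hB⟩
      rw [hb] at hx
      simp only [Option.some_or, Option.mem_def, Option.some.injEq] at hx
      subst hx
      exact h2 _ hb y hy
  · intro x hx y hy
    rw [List.getLast?_append, List.getLast?_reverse] at hx
    rw [List.append_assoc, List.head?_append, List.head?_reverse] at hy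
    obtain ⟨c, hc⟩ : ∃ c, C.head? = some c := ⟨C.head hC, List.head?_eq_some_head hC⟩
    obtain ⟨a, ha⟩ : ∃ a, A.getLast? = some a := ⟨A.getLast hA, List.getLast?_eq_some_getLast hA⟩
    rw [hc] at hx
    rw [ha] at hy
    simp only [Option.some_or, Option.mem_def, Option.some.injEq] at hx hy
    subst hx
    subst hy
    exact h3 _ hc _ ha

theorem cl_two {A B C : List V} (h : Pth G (A ++ B ++ C)) (hA : A ≠ []) (hB : B ≠ [])
    (hC : C ≠ [])
    (h1 : ∀ x ∈ A.getLast?, ∀ y ∈ B.getLast?, G.Adj x y)
    (h2 : ∀ x ∈ B.head?, ∀ y ∈ C.getLast?, G.Adj x y)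
    (h3 : ∀ x ∈ C.head?, ∀ y ∈ A.head?, G.Adj x y) :
    Cl G (A ++ B.reverse ++ C.reverse) := by
  obtain ⟨hn, hc⟩ := h
  rw [List.isChain_append, List.isChain_append] at hc
  obtain ⟨⟨cA, cB, -⟩, cC, -⟩ := hc
  refine ⟨?_, ?_, ?_⟩
  · have hp : (A ++ B.reverse ++ C.reverse).Perm (A ++ B ++ C) :=
      ((List.reverse_perm B).append_left A).append (List.reverse_perm C)
    exact hp.nodup_iff.2 hn
  · rw [List.isChain_append, List.isChain_append]
    refine ⟨⟨cA, chain_rev cB, ?_⟩, chain_rev cC, ?_⟩
    · intro x hx y hy
      rw [List.head?_reverse] at hy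
      exact h1 x hx y hy
    · intro x hx y hy
      rw [List.head?_reverse] at hy
      rw [List.getLast?_append, List.getLast?_reverse] at hx
      obtain ⟨b, hb⟩ : ∃ b, B.head? = some b := ⟨B.head hB, List.head?_eq_some_head hB⟩
      rw [hb] at hx
      simp only [Option.some_or, Option.mem_def, Option.some.injEq] at hx
      subst hx
      exact h2 _ hb y hy
  · intro x hx y hy
    rw [List.getLast?_append, List.getLast?_reverse] at hx
    rw [List.append_assoc, List.head?_append] at hy
    obtain ⟨c, hc⟩ : ∃ c, C.head? = some c := ⟨C.head hC, List.head?_eq_some_head hC⟩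
    obtain ⟨a, ha⟩ : ∃ a, A.head? = some a := ⟨A.head hA, List.head?_eq_some_head hA⟩
    rw [hc] at hx
    rw [ha] at hy
    simp only [Option.some_or, Option.mem_def, Option.some.injEq] at hx hy
    subst hx
    subst hy
    exact h3 _ hc _ ha

/-- splitting a list at two places -/
theorem split_at {α : Type*} (l : List α) {i k : ℕ} (hik : i ≤ k) :
    l = l.take i ++ (l.take k).drop i ++ l.drop k := by
  have h1 : l.take i = (l.take k).take i := by
    rw [List.take_take, min_eq_left hik]
  rw [h1, List.take_append_drop, List.take_append_drop]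

theorem getLast?_take' {α : Type*} (l : List α) {i : ℕ} (h0 : 0 < i) (hi : i ≤ l.length) :
    (l.take i).getLast? = l[i - 1]? := by
  rw [List.getLast?_take, if_neg (by omega)]
  rw [List.getElem?_eq_getElem (by omega)]
  simp

theorem head?_mid {α : Type*} (l : List α) {i k : ℕ} (hik : i < k) :
    ((l.take k).drop i).head? = l[i]? := by
  rw [List.head?_drop, List.getElem?_take, if_pos hik]

theorem getLast?_mid {α : Type*} (l : List α) {i k : ℕ} (hik : i < k) (hk : k ≤ l.length) :
    ((l.take k).drop i).getLast? = l[k - 1]? := by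
  rw [List.getLast?_drop, List.length_take, if_neg (by omega), getLast?_take' l (by omega) hk]

theorem head?_take' {α : Type*} (l : List α) {i : ℕ} (h0 : 0 < i) :
    (l.take i).head? = l[0]? := by
  rw [List.head?_take, if_neg (by omega), List.head?_eq_getElem?]

theorem getLast?_drop' {α : Type*} (l : List α) {k : ℕ} (hk : k < l.length) :
    (l.drop k).getLast? = l[l.length - 1]? := by
  rw [List.getLast?_drop, if_neg (by omega), List.getLast?_eq_getElem?]

/-- first rotation -/
theorem cycle_one {l : List V} (h : Pth G l) {i j : ℕ} (hi : 0 < i) (hij : i ≤ j)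
    (hj : j + 1 < l.length) (h0i : G.Adj (l[0]'(by omega)) (l[i]'(by omega)))
    (hlj : G.Adj (l[l.length - 1]'(by omega)) (l[j]'(by omega)))
    (hx : G.Adj (l[i - 1]'(by omega)) (l[j + 1]'(by omega))) :
    ∃ c, Cl G c ∧ ∀ v, v ∈ c ↔ v ∈ l := by
  have hs := split_at l (i := i) (k := j + 1) (by omega)
  refine ⟨(l.take i).reverse ++ (l.take (j + 1)).drop i ++ (l.drop (j + 1)).reverse, ?_, ?_⟩
  · apply cl_one (by rw [← hs]; exact h)
    · refine List.ne_nil_of_length_pos ?_
      simp only [List.length_take, List.length_drop]
      omega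
    · refine List.ne_nil_of_length_pos ?_
      simp only [List.length_take, List.length_drop]
      omega
    · refine List.ne_nil_of_length_pos ?_
      simp only [List.length_take, List.length_drop]
      omega
    · intro x hx y hy
      rw [head?_take' l hi, List.getElem?_eq_getElem (by omega)] at hx
      rw [head?_mid l (by omega), List.getElem?_eq_getElem (by omega)] at hy
      simp only [Option.mem_def, Option.some.injEq] at hx hy
      rw [← hx, ← hy]
      exact h0i
    · intro x hx y hy
      rw [getLast?_mid l (by omega) (by omega), List.getElem?_eq_getElem (by omega)] at hx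
      rw [getLast?_drop' l (by omega), List.getElem?_eq_getElem (by omega)] at hy
      simp only [Option.mem_def, Option.some.injEq, Nat.add_sub_cancel] at hx hy
      rw [← hx, ← hy]
      exact hlj.symm
    · intro x hx' y hy
      rw [List.head?_drop, List.getElem?_eq_getElem (by omega)] at hx'
      rw [getLast?_take' l hi (by omega), List.getElem?_eq_getElem (by omega)] at hy
      simp only [Option.mem_def, Option.some.injEq] at hx' hy
      rw [← hx', ← hy]
      exact hx.symm
  · intro v
    conv_rhs => rw [hs]
    simp only [List.mem_append, List.mem_reverse]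

/-- second rotation -/
theorem cycle_two {l : List V} (h : Pth G l) {i j : ℕ} (hj : 0 < j) (hji : j < i)
    (hi : i < l.length) (h0i : G.Adj (l[0]'(by omega)) (l[i]'(by omega)))
    (hlj : G.Adj (l[l.length - 1]'(by omega)) (l[j]'(by omega)))
    (hx : G.Adj (l[j - 1]'(by omega)) (l[i - 1]'(by omega))) :
    ∃ c, Cl G c ∧ ∀ v, v ∈ c ↔ v ∈ l := by
  have hs := split_at l (i := j) (k := i) (by omega)
  refine ⟨(l.take j) ++ ((l.take i).drop j).reverse ++ (l.drop i).reverse, ?_, ?_⟩
  · apply cl_two (by rw [← hs]; exact h)
    · refine List.ne_nil_of_length_pos ?_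
      simp only [List.length_take, List.length_drop]
      omega
    · refine List.ne_nil_of_length_pos ?_
      simp only [List.length_take, List.length_drop]
      omega
    · refine List.ne_nil_of_length_pos ?_
      simp only [List.length_take, List.length_drop]
      omega
    · intro x hx' y hy
      rw [getLast?_take' l hj (by omega), List.getElem?_eq_getElem (by omega)] at hx'
      rw [getLast?_mid l (by omega) (by omega), List.getElem?_eq_getElem (by omega)] at hy
      simp only [Option.mem_def, Option.some.injEq] at hx' hy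
      rw [← hx', ← hy]
      exact hx
    · intro x hx' y hy
      rw [head?_mid l (by omega), List.getElem?_eq_getElem (by omega)] at hx'
      rw [getLast?_drop' l (by omega), List.getElem?_eq_getElem (by omega)] at hy
      simp only [Option.mem_def, Option.some.injEq] at hx' hy
      rw [← hx', ← hy]
      exact hlj.symm
    · intro x hx' y hy
      rw [List.head?_drop, List.getElem?_eq_getElem (by omega)] at hx'
      rw [head?_take' l hj, List.getElem?_eq_getElem (by omega)] at hy
      simp only [Option.mem_def, Option.some.injEq] at hx' hy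
      rw [← hx', ← hy]
      exact h0i.symm
  · intro v
    conv_rhs => rw [hs]
    simp only [List.mem_append, List.mem_reverse]

/-- opening a closed path at a vertex with a neighbour outside gives a longer path -/
theorem open_cycle {c : List V} (h : Cl G c) {v w : V} (hv : v ∈ c) (hw : w ∉ c)
    (hvw : G.Adj w v) : ∃ l, Pth G l ∧ l.length = c.length + 1 := by
  obtain ⟨hn, hc, hcl⟩ := h
  obtain ⟨A, B, rfl⟩ := List.append_of_mem hv
  refine ⟨w :: (v :: B ++ A), ⟨?_, ?_⟩, ?_⟩
  · rw [List.nodup_cons]
    refine ⟨fun hm => hw ?_, ?_⟩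
    · rw [List.mem_append] at hm ⊢
      exact hm.symm
    · exact (List.perm_append_comm).nodup_iff.2 hn
  · rw [List.cons_append, List.isChain_cons_cons]
    refine ⟨hvw, ?_⟩
    rw [List.isChain_append] at hc
    have hg : (v :: B ++ A).IsChain G.Adj := by
      rw [List.isChain_append]
      refine ⟨hc.2.1, hc.1, ?_⟩
      intro x hx y hy
      apply hcl x _ y
      · rw [List.head?_append]
        rw [Option.mem_def] at hy
        rw [hy]
        simp
      · rw [List.getLast?_append]
        rw [Option.mem_def] at hx
        rw [hx]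
        simp
    exact hg
  · simp only [List.length_cons, List.length_append]
    omega

theorem exists_longest [Fintype V] [Nonempty V] (G : SimpleGraph V) :
    ∃ l, Pth G l ∧ 1 ≤ l.length ∧ ∀ l', Pth G l' → l'.length ≤ l.length := by
  obtain ⟨v⟩ := (inferInstance : Nonempty V)
  have hv : Pth G [v] := ⟨by simp, by simp⟩
  have hb : ∀ l, Pth G l → l.length ≤ Fintype.card V := fun l hl => hl.1.length_le_card
  have hs := Nat.findGreatest_spec (P := fun k => ∃ l, Pth G l ∧ l.length = k)
    (hb _ hv) ⟨[v], hv, rfl⟩
  obtain ⟨l, hl, hlen⟩ := hs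
  have hmax : ∀ l', Pth G l' → l'.length ≤ l.length := by
    intro l' hl'
    rw [hlen]
    exact Nat.le_findGreatest (hb _ hl') ⟨l', hl', rfl⟩
  exact ⟨l, hl, hmax _ hv, hmax⟩

end HC

open HC

theorem ham_criterion {V : Type*} [Fintype V] [DecidableEq V] [Nonempty V] (G : SimpleGraph V)
    (d : ℕ) (hd : 1 ≤ d) (hdeg : ∀ v, 2 * d ≤ (univ.filter (fun w => G.Adj v w)).card)
    (hjoin : ∀ A B : Finset V, Disjoint A B → A.card = d → B.card = d →
      ∃ a ∈ A, ∃ b ∈ B, G.Adj a b) :
    ∃ l, CycL G l := by
  obtain ⟨l, hl, hpos, hmax⟩ := exists_longest G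
  -- a closed path on the same vertices
  have hcyc : ∃ c, Cl G c ∧ ∀ v, v ∈ c ↔ v ∈ l := by
    have hlast : l.length - 1 < l.length := by omega
    by_cases hends : G.Adj (l[l.length - 1]'hlast) (l[0]'hpos)
    · refine ⟨l, ⟨hl.1, hl.2, ?_⟩, fun v => Iff.rfl⟩
      intro x hx y hy
      rw [List.getLast?_eq_getElem?, List.getElem?_eq_getElem hlast] at hx
      rw [List.head?_eq_getElem?, List.getElem?_eq_getElem hpos] at hy
      simp only [Option.mem_def, Option.some.injEq] at hx hy
      rw [← hx, ← hy]
      exact hends
    · -- neighbours of the ends lie on the path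
      have hnb0 : ∀ w, G.Adj (l[0]'hpos) w → w ∈ l := by
        intro w hw
        by_contra hmem
        have hP : Pth G (w :: l) := by
          refine ⟨List.nodup_cons.2 ⟨hmem, hl.1⟩, ?_⟩
          rw [List.isChain_cons]
          refine ⟨fun y hy => ?_, hl.2⟩
          rw [List.head?_eq_getElem?, List.getElem?_eq_getElem hpos] at hy
          simp only [Option.mem_def, Option.some.injEq] at hy
          rw [← hy]
          exact hw.symm
        have := hmax _ hP
        simp at this
      have hnb1 : ∀ w, G.Adj (l[l.length - 1]'hlast) w → w ∈ l := by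
        intro w hw
        by_contra hmem
        have hP : Pth G (l ++ [w]) := by
          refine ⟨?_, ?_⟩
          · rw [List.nodup_append]
            refine ⟨hl.1, by simp, ?_⟩
            intro a ha b hb
            simp only [List.mem_singleton] at hb
            subst hb
            rintro rfl
            exact hmem ha
          · rw [List.isChain_append]
            refine ⟨hl.2, by simp, ?_⟩
            intro x hx y hy
            rw [List.getLast?_eq_getElem?, List.getElem?_eq_getElem hlast] at hx
            simp only [List.head?_cons, Option.mem_def, Option.some.injEq] at hx hy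
            rw [← hx, ← hy]
            exact hw
        have := hmax _ hP
        simp at this
      -- the two index sets
      have hidx : ∀ u : V, (∀ w, G.Adj u w → w ∈ l) →
          2 * d ≤ ((Finset.range l.length).filter
            (fun i => ∃ h : i < l.length, G.Adj u (l[i]'h))).card := by
        intro u hu
        refine (hdeg u).trans ?_
        have hsub : (univ.filter (fun w => G.Adj u w)) ⊆
            (((Finset.range l.length).filter
            (fun i => ∃ h : i < l.length, G.Adj u (l[i]'h))).image (fun i => l.getD i u)) := by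
          intro w hw
          rw [Finset.mem_filter] at hw
          obtain ⟨i, hi, hiw⟩ := List.getElem_of_mem (hu w hw.2)
          rw [Finset.mem_image]
          refine ⟨i, ?_, ?_⟩
          · rw [Finset.mem_filter, Finset.mem_range]
            exact ⟨hi, hi, by rw [hiw]; exact hw.2⟩
          · rw [List.getD_eq_getElem _ _ hi, hiw]
        exact (Finset.card_le_card hsub).trans Finset.card_image_le
      have hinj : ∀ {a b : ℕ} (ha : a < l.length) (hb : b < l.length),
          l[a]'ha = l[b]'hb → a = b := fun ha hb h => (hl.1.getElem_inj_iff).1 h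
      have hset : ∀ (K : Finset ℕ) (f : ℕ → ℕ), (∀ k ∈ K, f k < l.length) →
          (∀ a ∈ K, ∀ b ∈ K, f a = f b → a = b) → K.card = d →
          (K.image (fun k => l.getD (f k) (l[0]'hpos))).card = d := by
        intro K f hf hfi hK
        rw [Finset.card_image_of_injOn, hK]
        intro a ha b hb hab
        simp only at hab
        rw [List.getD_eq_getElem _ _ (hf a ha), List.getD_eq_getElem _ _ (hf b hb)] at hab
        exact hfi a ha b hb (hinj _ _ hab)
      rcases split_lemma d hd _ _ (hidx _ hnb0) (hidx _ hnb1) with
        ⟨I', hI', J', hJ', hIc, hJc, hIJ⟩ | ⟨I', hI', J', hJ', hIc, hJc, hIJ⟩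
      · -- first case
        have hI1 : ∀ i ∈ I', 0 < i ∧ ∃ h : i < l.length, G.Adj (l[0]'hpos) (l[i]'h) := by
          intro i hi
          have := (Finset.mem_filter.1 (hI' hi)).2
          refine ⟨?_, this⟩
          rcases Nat.eq_zero_or_pos i with h0 | h0
          · subst h0
            obtain ⟨_, h⟩ := this
            exact absurd h (G.irrefl)
          · exact h0
        have hJ1 : ∀ j ∈ J', j + 1 < l.length ∧
            ∃ h : j < l.length, G.Adj (l[l.length - 1]'hlast) (l[j]'h) := by
          intro j hj
          have := (Finset.mem_filter.1 (hJ' hj)).2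
          refine ⟨?_, this⟩
          obtain ⟨hjl, h⟩ := this
          by_contra hcon
          have hje : j = l.length - 1 := by omega
          subst hje
          exact absurd h (G.irrefl)
        obtain ⟨a, ha, b, hb, hab⟩ := hjoin (I'.image (fun k => l.getD (k - 1) (l[0]'hpos)))
          (J'.image (fun k => l.getD (k + 1) (l[0]'hpos)))
          (by
            rw [Finset.disjoint_left]
            intro x hx hy
            obtain ⟨i, hi, hix⟩ := Finset.mem_image.1 hx
            obtain ⟨j, hj, hjx⟩ := Finset.mem_image.1 hy
            obtain ⟨hi0, hil, -⟩ := hI1 i hi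
            obtain ⟨hj0, hjl, -⟩ := hJ1 j hj
            have hle := hIJ i hi j hj
            have he := hix.trans hjx.symm
            rw [List.getD_eq_getElem _ _ (by omega), List.getD_eq_getElem _ _ (by omega)] at he
            have := hinj _ _ he
            omega)
          (hset I' _ (fun k hk => by
              obtain ⟨_, hkl, -⟩ := hI1 k hk
              omega)
            (fun a ha b hb hab => by
              have := (hI1 a ha).1
              have := (hI1 b hb).1
              omega) hIc)
          (hset J' _ (fun k hk => (hJ1 k hk).1) (fun a ha b hb hab => by omega) hJc)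
        obtain ⟨i, hi, rfl⟩ := Finset.mem_image.1 ha
        obtain ⟨j, hj, rfl⟩ := Finset.mem_image.1 hb
        obtain ⟨hi0, hil, h0i⟩ := hI1 i hi
        obtain ⟨hj0, hjl, hlj⟩ := hJ1 j hj
        have hle := hIJ i hi j hj
        rw [List.getD_eq_getElem _ _ (by omega), List.getD_eq_getElem _ _ (by omega)] at hab
        exact cycle_one hl hi0 hle hj0 h0i hlj hab
      · -- second case
        have hI1 : ∀ i ∈ I', ∃ h : i < l.length, G.Adj (l[0]'hpos) (l[i]'h) :=
          fun i hi => (Finset.mem_filter.1 (hI' hi)).2
        have hJ1 : ∀ j ∈ J', 0 < j ∧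
            ∃ h : j < l.length, G.Adj (l[l.length - 1]'hlast) (l[j]'h) := by
          intro j hj
          have := (Finset.mem_filter.1 (hJ' hj)).2
          refine ⟨?_, this⟩
          rcases Nat.eq_zero_or_pos j with h0 | h0
          · subst h0
            obtain ⟨_, h⟩ := this
            exact absurd h hends
          · exact h0
        obtain ⟨b, hb, a, ha, hab⟩ := hjoin (J'.image (fun k => l.getD (k - 1) (l[0]'hpos)))
          (I'.image (fun k => l.getD (k - 1) (l[0]'hpos)))
          (by
            rw [Finset.disjoint_left]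
            intro x hx hy
            obtain ⟨j, hj, hjx⟩ := Finset.mem_image.1 hx
            obtain ⟨i, hi, hix⟩ := Finset.mem_image.1 hy
            obtain ⟨hil, -⟩ := hI1 i hi
            obtain ⟨hj0, hjl, -⟩ := hJ1 j hj
            have hle := hIJ i hi j hj
            have he := hix.trans hjx.symm
            rw [List.getD_eq_getElem _ _ (by omega), List.getD_eq_getElem _ _ (by omega)] at he
            have := hinj _ _ he
            omega)
          (hset J' _ (fun k hk => by
              obtain ⟨_, hkl, -⟩ := hJ1 k hk
              omega)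
            (fun a ha b hb hab => by
              have := (hJ1 a ha).1
              have := (hJ1 b hb).1
              omega) hJc)
          (hset I' _ (fun k hk => by
              obtain ⟨hkl, -⟩ := hI1 k hk
              omega)
            (fun a ha b hb hab => by
              obtain ⟨j, hj⟩ : J'.Nonempty := by
                rw [← Finset.card_pos]
                omega
              have := hIJ a ha j hj
              have := hIJ b hb j hj
              omega) hIc)
        obtain ⟨j, hj, rfl⟩ := Finset.mem_image.1 hb
        obtain ⟨i, hi, rfl⟩ := Finset.mem_image.1 ha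
        obtain ⟨hil, h0i⟩ := hI1 i hi
        obtain ⟨hj0, hjl, hlj⟩ := hJ1 j hj
        have hlt := hIJ i hi j hj
        rw [List.getD_eq_getElem _ _ (by omega), List.getD_eq_getElem _ _ (by omega)] at hab
        exact cycle_two hl hj0 hlt hil h0i hlj hab
  obtain ⟨c, hc, hmem⟩ := hcyc
  have hlen : c.length = l.length := by
    have hp : c.Perm l := (List.perm_ext_iff_of_nodup hc.1 hl.1).2 hmem
    exact hp.length_eq
  -- no edge leaves the closed path
  have hno : ∀ v ∈ c, ∀ w, G.Adj v w → w ∈ c := by
    intro v hv w hvw
    by_contra hw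
    obtain ⟨l', hl', hlen'⟩ := open_cycle hc hv hw hvw.symm
    have := hmax _ hl'
    omega
  have hall : ∀ v, v ∈ c := by
    by_contra hcon
    push Not at hcon
    obtain ⟨w, hw⟩ := hcon
    have hv : ∃ v, v ∈ c := by
      have : 0 < c.length := by omega
      exact ⟨_, List.getElem_mem this⟩
    obtain ⟨v, hv⟩ := hv
    obtain ⟨A, hA, hAc⟩ := Finset.exists_subset_card_eq
      (show d ≤ (univ.filter (fun x => G.Adj v x)).card from by have := hdeg v; omega)
    obtain ⟨B, hB, hBc⟩ := Finset.exists_subset_card_eq
      (show d ≤ (univ.filter (fun x => G.Adj w x)).card from by have := hdeg w; omega)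
    have hAin : ∀ a ∈ A, a ∈ c := fun a ha => hno v hv a (Finset.mem_filter.1 (hA ha)).2
    have hBout : ∀ b ∈ B, b ∉ c := fun b hb hbc =>
      hw (hno b hbc w (Finset.mem_filter.1 (hB hb)).2.symm)
    obtain ⟨a, ha, b, hb, hab⟩ := hjoin A B (by
      rw [Finset.disjoint_left]
      intro x hx hy
      exact hBout x hy (hAin x hx)) hAc hBc
    exact hBout b hb (hno a (hAin a ha) b hab)
  refine ⟨c, hc.1, hall, hc.2.1, fun h => ?_⟩
  exact hc.2.2 _ (List.getLast?_eq_some_getLast h) _ (List.head?_eq_some_head h)

end Pool.Agent.HamSp
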