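import Pool.Agent.Lib.MP_e65231_co.Iso

/-!
# Consequences of a failure of Hall's condition (MP_e65231_co, module DEF, helper22)
-/

set_option linter.unusedSectionVars false
set_option linter.unusedVariables false

noncomputable section

open scoped Classical FinsetFamily
open Finset

namespace Pool.Agent.HamSp

section Abs

variable {α : Type*} [Fintype α] [DecidableEq α]

/-- double counting of the pairs (member of `B`, element whose removal gives a set with `Q`) -/
theorem sum_bdeg (B : Finset (Finset α)) (m : ℕ) (hB : ∀ H ∈ B, H.card = m)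
    (Q : Finset α → Prop) :
    ∑ G ∈ (∂ B).filter Q, bdeg B G = ∑ H ∈ B, (H.filter (fun e => Q (H.erase e))).card := by
  have h1 : ∀ G, bdeg B G = ∑ H ∈ B, if G ⊆ H then 1 else 0 := by
    intro G
    rw [bdeg, Finset.card_filter]
  have h2 : ∀ H ∈ B, (∑ G ∈ (∂ B).filter Q, if G ⊆ H then 1 else 0) =
      (H.filter (fun e => Q (H.erase e))).card := by
    intro H hH
    rw [← Finset.card_filter]
    have h3 : ((∂ B).filter Q).filter (fun G => G ⊆ H) =
        (H.filter (fun e => Q (H.erase e))).image (fun e => H.erase e) := by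
      ext G
      simp only [Finset.mem_filter, Finset.mem_image]
      constructor
      · rintro ⟨⟨hG, hQ⟩, hGH⟩
        obtain ⟨H', hH', e', he', hGe⟩ := Finset.mem_shadow_iff.mp hG
        have hcG : G.card + 1 = m := by
          rw [← hGe, Finset.card_erase_add_one he', hB H' hH']
        have hcH : H.card = m := hB H hH
        obtain ⟨e, he⟩ := Finset.exists_of_ssubset
          (Finset.ssubset_iff_subset_ne.mpr ⟨hGH, by
            intro h
            rw [h] at hcG
            omega⟩)
        have hEq : H.erase e = G := by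
          symm
          apply Finset.eq_of_subset_of_card_le
          · intro x hx
            rw [Finset.mem_erase]
            exact ⟨fun h => he.2 (h ▸ hx), hGH hx⟩
          · rw [Finset.card_erase_of_mem he.1]
            omega
        exact ⟨e, ⟨he.1, by rw [hEq]; exact hQ⟩, hEq⟩
      · rintro ⟨e, ⟨he, hQ⟩, rfl⟩
        exact ⟨⟨Finset.erase_mem_shadow hH he, hQ⟩, Finset.erase_subset _ _⟩
    rw [h3, Finset.card_image_of_injOn]
    intro a ha b hb hab
    have ha' : a ∈ H := (Finset.mem_filter.mp (Finset.mem_coe.mp ha)).1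
    exact (Finset.erase_inj H ha').mp hab
  simp_rw [h1]
  rw [Finset.sum_comm]
  exact Finset.sum_congr rfl h2

/-- the number of members of `B` above `G` is at most the number of missing elements -/
theorem bdeg_le (B : Finset (Finset α)) (m : ℕ) (hB : ∀ H ∈ B, H.card = m) (G : Finset α)
    (hG : G ∈ ∂ B) : bdeg B G ≤ Fintype.card α - m + 1 := by
  obtain ⟨H', hH', e', he', hGe⟩ := Finset.mem_shadow_iff.mp hG
  have hcG : G.card + 1 = m := by
    rw [← hGe, Finset.card_erase_add_one he', hB H' hH']
  have hsub : B.filter (fun H => G ⊆ H) ⊆ (Gᶜ).image (fun e => insert e G) := by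
    intro H hH
    rw [Finset.mem_filter] at hH
    have hcH : H.card = m := hB H hH.1
    obtain ⟨e, he⟩ := Finset.exists_of_ssubset
      (Finset.ssubset_iff_subset_ne.mpr ⟨hH.2, by
        intro h
        rw [h] at hcG
        omega⟩)
    rw [Finset.mem_image]
    refine ⟨e, Finset.mem_compl.mpr he.2, ?_⟩
    apply Finset.eq_of_subset_of_card_le
    · intro x hx
      rcases Finset.mem_insert.mp hx with rfl | hx
      · exact he.1
      · exact hH.2 hx
    · rw [Finset.card_insert_of_notMem he.2]
      omega
  have h4 : bdeg B G ≤ (Gᶜ).card := (Finset.card_le_card hsub).trans Finset.card_image_le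
  rw [Finset.card_compl] at h4
  have h5 : H'.card ≤ Fintype.card α := Finset.card_le_univ H'
  rw [hB H' hH'] at h5
  omega

/-- critical elements and the others -/
theorem card_crit_add (P : Finset α → Prop) (H : Finset α) :
    (H.filter (fun e => P (H.erase e))).card + (crit P H).card = H.card :=
  Finset.card_filter_add_card_filter_not (s := H) (fun e => P (H.erase e))

theorem sum_dsh (P : Finset α → Prop) (m : ℕ) (B : Finset (Finset α))
    (hB : ∀ H ∈ B, P H ∧ H.card = m) :
    (∑ G ∈ dsh P B, bdeg B G) + ∑ H ∈ B, (crit P H).card = B.card * m := by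
  have h1 := sum_bdeg B m (fun H hH => (hB H hH).2) P
  rw [dsh, h1, ← Finset.sum_add_distrib]
  rw [Finset.sum_congr rfl (fun H _ => card_crit_add P H)]
  rw [Finset.sum_congr rfl (fun H hH => (hB H hH).2), Finset.sum_const, smul_eq_mul]

theorem defect_gt (P : Finset α → Prop) (m : ℕ) (hm : Fintype.card α + 2 ≤ 2 * m)
    (B : Finset (Finset α)) (hB : ∀ H ∈ B, P H ∧ H.card = m)
    (hlt : (dsh P B).card < B.card) :
    B.card * (2 * m) < (∑ H ∈ B, (crit P H).card) + B.card * (Fintype.card α + 1) := by
  have hne : B.Nonempty := by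
    rw [← Finset.card_pos]
    omega
  obtain ⟨H₀, hH₀⟩ := hne
  have hmN : m ≤ Fintype.card α := by
    rw [← (hB H₀ hH₀).2]
    exact Finset.card_le_univ H₀
  have h1 := sum_dsh P m B hB
  have h2 : ∑ G ∈ dsh P B, bdeg B G ≤ (dsh P B).card * (Fintype.card α - m + 1) := by
    rw [← smul_eq_mul]
    apply Finset.sum_le_card_nsmul
    intro G hG
    exact bdeg_le B m (fun H hH => (hB H hH).2) G (Finset.mem_filter.mp hG).1
  have h3 : (dsh P B).card * (Fintype.card α - m + 1) < B.card * (Fintype.card α - m + 1) :=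
    Nat.mul_lt_mul_of_pos_right hlt (Nat.succ_pos _)
  have h4 : B.card * (Fintype.card α - m + 1) + B.card * m = B.card * (Fintype.card α + 1) := by
    rw [← mul_add]
    congr 1
    omega
  have h5 : B.card * (2 * m) = B.card * m + B.card * m := by ring
  omega

theorem defect_log (P : Finset α → Prop) (m : ℕ) (hm : Fintype.card α + 2 ≤ 2 * m)
    (B : Finset (Finset α)) (hB : ∀ H ∈ B, P H ∧ H.card = m)
    (hlt : (dsh P B).card < B.card) :
    (B.card : ℝ) * Real.log (((Fintype.card α).choose m : ℝ) / B.card) ≤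
      (∑ H ∈ B, ((crit P H).card : ℝ)) * (1 + Real.log (Fintype.card α)) := by
  have hne : B.Nonempty := by
    rw [← Finset.card_pos]
    omega
  have hne' := hne
  obtain ⟨H₀, hH₀⟩ := hne
  have hmN : m ≤ Fintype.card α := by
    rw [← (hB H₀ hH₀).2]
    exact Finset.card_le_univ H₀
  have hB' : ∀ H ∈ B, H.card = m := fun H hH => (hB H hH).2
  have hm1 : 1 ≤ m := by omega
  refine (iso B m hm1 hB' hne').trans ?_
  set M : ℝ := ((Fintype.card α - m + 1 : ℕ) : ℝ) with hM
  have hMpos : 0 < M := by
    rw [hM]
    exact_mod_cast Nat.succ_pos _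
  have hMN : M ≤ (Fintype.card α : ℝ) := by
    rw [hM]
    exact_mod_cast (by omega : Fintype.card α - m + 1 ≤ Fintype.card α)
  have hMm : M ≤ (m : ℝ) := by
    rw [hM]
    exact_mod_cast (by omega : Fintype.card α - m + 1 ≤ m)
  rw [← Finset.sum_filter_add_sum_filter_not (∂ B) P]
  have hA : ∑ G ∈ (∂ B).filter P, (bdeg B G : ℝ) * Real.log (M / bdeg B G) ≤
      ∑ H ∈ B, ((crit P H).card : ℝ) := by
    have h1 : ∀ G ∈ (∂ B).filter P, (bdeg B G : ℝ) * Real.log (M / bdeg B G) ≤
        M - (bdeg B G : ℝ) := by
      intro G _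
      rcases Nat.eq_zero_or_pos (bdeg B G) with h0 | h0
      · rw [h0]
        simp [hMpos.le]
      · have hb : (0 : ℝ) < (bdeg B G : ℝ) := by exact_mod_cast h0
        have h2 := Real.log_le_sub_one_of_pos (div_pos hMpos hb)
        calc (bdeg B G : ℝ) * Real.log (M / bdeg B G)
            ≤ (bdeg B G : ℝ) * (M / bdeg B G - 1) := mul_le_mul_of_nonneg_left h2 hb.le
          _ = M - bdeg B G := by field_simp
    refine (Finset.sum_le_sum h1).trans ?_
    rw [Finset.sum_sub_distrib, Finset.sum_const, nsmul_eq_mul]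
    have h3 := sum_dsh P m B hB
    have h3' : (∑ G ∈ (∂ B).filter P, (bdeg B G : ℝ)) + ∑ H ∈ B, ((crit P H).card : ℝ) =
        (B.card : ℝ) * m := by
      exact_mod_cast h3
    have h4 : (((∂ B).filter P).card : ℝ) ≤ B.card := by
      exact_mod_cast hlt.le
    have h5 : (((∂ B).filter P).card : ℝ) * M ≤ (B.card : ℝ) * m :=
      mul_le_mul h4 hMm hMpos.le (by positivity)
    linarith
  have hC : ∑ G ∈ (∂ B).filter (fun G => ¬ P G), (bdeg B G : ℝ) * Real.log (M / bdeg B G) ≤
      (∑ H ∈ B, ((crit P H).card : ℝ)) * Real.log (Fintype.card α) := by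
    have h1 : ∀ G ∈ (∂ B).filter (fun G => ¬ P G), (bdeg B G : ℝ) * Real.log (M / bdeg B G) ≤
        (bdeg B G : ℝ) * Real.log (Fintype.card α) := by
      intro G _
      rcases Nat.eq_zero_or_pos (bdeg B G) with h0 | h0
      · rw [h0]
        simp
      · have hb : (1 : ℝ) ≤ (bdeg B G : ℝ) := by exact_mod_cast h0
        apply mul_le_mul_of_nonneg_left _ (by linarith)
        apply Real.log_le_log (div_pos hMpos (by linarith))
        exact (div_le_self hMpos.le hb).trans hMN
    refine (Finset.sum_le_sum h1).trans ?_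
    rw [← Finset.sum_mul]
    have h3 : ∑ G ∈ (∂ B).filter (fun G => ¬ P G), bdeg B G = ∑ H ∈ B, (crit P H).card := by
      have h6 := sum_bdeg B m hB' (fun G => ¬ P G)
      refine Eq.trans ?_ (h6.trans ?_)
      · apply Finset.sum_congr _ (fun _ _ => rfl)
        ext G
        simp
      · apply Finset.sum_congr rfl
        intro H _
        apply congrArg
        ext e
        simp [crit]
    have h3' : (∑ G ∈ (∂ B).filter (fun G => ¬ P G), (bdeg B G : ℝ)) =
        ∑ H ∈ B, ((crit P H).card : ℝ) := by
      exact_mod_cast h3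
    rw [h3']
  linarith

end Abs

end Pool.Agent.HamSp
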