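import Mathlib

/-!
# Sperner property of the poset of Hamiltonian graphs: definitions (MP_e65231_co)

Abstract part: an up-set `P` of the subsets of a finite type `α`.  Graph part: graphs on `Fin n` are
finsets of slots, a slot is an unordered pair of distinct vertices.
-/

noncomputable section

open scoped Classical FinsetFamily
open Finset

namespace Pool.Agent.HamSp

section Abs

variable {α : Type*} [DecidableEq α]

/-- number of members of `B` that contain `G` -/
def bdeg (B : Finset (Finset α)) (G : Finset α) : ℕ := (B.filter (fun H => G ⊆ H)).card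

/-- the critical elements of `H` for the property `P` -/
def crit (P : Finset α → Prop) (H : Finset α) : Finset α := H.filter (fun e => ¬ P (H.erase e))

/-- the shadow of `B` inside the property `P` -/
def dsh (P : Finset α → Prop) (B : Finset (Finset α)) : Finset (Finset α) := (∂ B).filter P

end Abs

/-- `l` lists the vertices of a Hamiltonian cycle of `G` (for at least three vertices) -/
def CycL {V : Type*} (G : SimpleGraph V) (l : List V) : Prop :=
  l.Nodup ∧ (∀ v, v ∈ l) ∧ l.IsChain G.Adj ∧ ∀ h : l ≠ [], G.Adj (l.getLast h) (l.head h)

/-- a slot: an unordered pair of distinct vertices of `Fin n` -/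
abbrev Slot (n : ℕ) := {e : Sym2 (Fin n) // ¬ e.IsDiag}

/-- the graph whose edges are the members of `S` -/
def gr {n : ℕ} (S : Finset (Slot n)) : SimpleGraph (Fin n) where
  Adj a b := ∃ e ∈ S, e.1 = s(a, b)
  symm := ⟨by
    rintro a b ⟨e, he, h⟩
    exact ⟨e, he, by rw [h, Sym2.eq_swap]⟩⟩
  loopless := ⟨by
    rintro a ⟨e, _, h⟩
    apply e.2
    rw [h]
    simp⟩

/-- Hamiltonicity of the graph given by a set of slots -/
def Ham {n : ℕ} (S : Finset (Slot n)) : Prop := ∃ l, CycL (gr S) l

end Pool.Agent.HamSp
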