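import Pool.Agent.Lib.MP_e65231_co.Defs

/-!
# Critical slots, switches and the union bound (MP_e65231_co, module SW)
-/

noncomputable section

open scoped Classical FinsetFamily
open Finset

namespace Pool.Agent.HamSp

/-- position `k` modulo `n` on the cyclic sequence `σ` -/
def atp {n : ℕ} (hn : 0 < n) (σ : Fin n → Fin n) (k : ℕ) : Fin n := σ ⟨k % n, Nat.mod_lt _ hn⟩

theorem atp_lt {n : ℕ} (hn : 0 < n) (σ : Fin n → Fin n) {k : ℕ} (hk : k < n) :
    atp hn σ k = σ ⟨k, hk⟩ := by
  unfold atp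
  congr 1
  exact Fin.ext (Nat.mod_eq_of_lt hk)

theorem atp_n {n : ℕ} (hn : 0 < n) (σ : Fin n → Fin n) : atp hn σ n = atp hn σ 0 := by
  unfold atp
  congr 1
  exact Fin.ext (by simp)

theorem cycL_of {n : ℕ} (hn : 0 < n) (G : SimpleGraph (Fin n)) (σ : Fin n → Fin n)
    (hσ : Function.Bijective σ) (h : ∀ k < n, G.Adj (atp hn σ k) (atp hn σ (k + 1))) :
    ∃ l, CycL G l := by
  refine ⟨List.ofFn σ, List.nodup_ofFn.2 hσ.1, ?_, ?_, ?_⟩
  · intro v
    rw [List.mem_ofFn]
    exact hσ.2 v
  · rw [List.isChain_iff_getElem]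
    intro i hi
    rw [List.length_ofFn] at hi
    rw [List.getElem_ofFn, List.getElem_ofFn]
    have := h i (by omega)
    rw [atp_lt hn σ (by omega : i < n), atp_lt hn σ hi] at this
    exact this
  · intro hne
    rw [List.getLast_ofFn, List.head_ofFn]
    have := h (n - 1) (by omega)
    rw [Nat.sub_add_cancel (by omega : 1 ≤ n), atp_n, atp_lt hn σ (by omega : n - 1 < n),
      atp_lt hn σ hn] at this
    exact this

theorem of_cycL {n : ℕ} (hn : 0 < n) (G : SimpleGraph (Fin n)) (l : List (Fin n)) (hl : CycL G l) :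
    ∃ σ : Fin n → Fin n, Function.Bijective σ ∧ ∀ k < n, G.Adj (atp hn σ k) (atp hn σ (k + 1)) := by
  obtain ⟨hnd, hall, hch, hlast⟩ := hl
  have hlen : l.length = n := by
    have h1 : l.toFinset = univ := by
      ext v
      simp [hall v]
    have h2 := List.toFinset_card_of_nodup hnd
    rw [h1, Finset.card_univ, Fintype.card_fin] at h2
    exact h2.symm
  have hne : l ≠ [] := by
    rintro rfl
    simp at hlen
    omega
  have hσ : ∀ i : Fin n, (i : ℕ) < l.length := fun i => by rw [hlen]; exact i.2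
  refine ⟨fun i => l[(i : ℕ)]'(hσ i), ?_, ?_⟩
  · have hinj : Function.Injective (fun i : Fin n => l[(i : ℕ)]'(hσ i)) := by
      intro i j hij
      exact Fin.ext ((List.Nodup.getElem_inj_iff hnd).1 hij)
    exact (Fintype.bijective_iff_injective_and_card _).2 ⟨hinj, rfl⟩
  · intro k hk
    by_cases hk1 : k + 1 < n
    · rw [atp_lt hn _ hk, atp_lt hn _ hk1]
      rw [List.isChain_iff_getElem] at hch
      exact hch k (by omega)
    · have hk' : k + 1 = n := by omega
      have h3 := hlast hne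
      rw [List.getLast_eq_getElem, List.head_eq_getElem] at h3
      rw [hk', atp_n, atp_lt hn _ hn, atp_lt hn _ hk]
      have h5 : l.length - 1 = k := by omega
      have h6 : l[l.length - 1]'(by omega) = l[k]'(by omega) := by
        congr 1
      rw [h6] at h3
      exact h3

theorem ham_mono {n : ℕ} (S T : Finset (Slot n)) (h : S ⊆ T) (hS : Ham S) : Ham T := by
  obtain ⟨l, h1, h2, h3, h4⟩ := hS
  have hmono : ∀ a b, (gr S).Adj a b → (gr T).Adj a b := by
    rintro a b ⟨e, he, heq⟩
    exact ⟨e, h he, heq⟩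
  exact ⟨l, h1, h2, h3.imp hmono, fun hne => hmono _ _ (h4 hne)⟩

theorem ham_iff {n : ℕ} (hn : 0 < n) (S : Finset (Slot n)) : Ham S ↔ ∃ σ : Fin n → Fin n,
    Function.Bijective σ ∧ ∀ k < n, (gr S).Adj (atp hn σ k) (atp hn σ (k + 1)) := by
  constructor
  · rintro ⟨l, hl⟩
    exact of_cycL hn _ l hl
  · rintro ⟨σ, hσ, h⟩
    exact cycL_of hn _ σ hσ h

/-- a critical slot lies on every Hamiltonian cycle -/
theorem crit_on_cycle {n : ℕ} (hn : 0 < n) (S : Finset (Slot n)) (σ : Fin n → Fin n)
    (hσ : Function.Bijective σ) (h : ∀ k < n, (gr S).Adj (atp hn σ k) (atp hn σ (k + 1)))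
    (e : Slot n) (he : e ∈ crit Ham S) :
    ∃ k < n, e.1 = s(atp hn σ k, atp hn σ (k + 1)) := by
  by_contra hcon
  push Not at hcon
  have he' := (Finset.mem_filter.1 he).2
  apply he'
  rw [ham_iff hn]
  refine ⟨σ, hσ, fun k hk => ?_⟩
  obtain ⟨f, hf, hfe⟩ := h k hk
  refine ⟨f, Finset.mem_erase.2 ⟨?_, hf⟩, hfe⟩
  rintro rfl
  exact hcon k hk hfe

theorem crit_card_le {n : ℕ} (S : Finset (Slot n)) (hS : Ham S) : (crit Ham S).card ≤ n := by
  rcases Nat.eq_zero_or_pos n with h0 | hn
  · subst h0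
    have : crit Ham S = ∅ := by
      rw [Finset.eq_empty_iff_forall_notMem]
      rintro ⟨e, he⟩
      induction e using Sym2.ind with
      | _ a b => exact a.elim0
    rw [this]
    simp
  · obtain ⟨σ, hσ, h⟩ := (ham_iff hn S).1 hS
    have hk : ∀ e ∈ crit Ham S, ∃ k < n, e.1 = s(atp hn σ k, atp hn σ (k + 1)) :=
      fun e he => crit_on_cycle hn S σ hσ h e he
    choose! k hk1 hk2 using hk
    have := Finset.card_le_card_of_injOn (s := crit Ham S) (t := Finset.range n) k
      (fun e he => Finset.mem_coe.2 (Finset.mem_range.2 (hk1 e he))) (by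
        intro e he f hf hef
        apply Subtype.ext
        rw [hk2 e he, hk2 f hf, hef])
    simpa using this

theorem atp_inj {n : ℕ} (hn : 0 < n) (σ : Fin n → Fin n) (hσ : Function.Injective σ) {p q : ℕ}
    (hp : p < n) (hq : q < n) (h : atp hn σ p = atp hn σ q) : p = q := by
  rw [atp_lt hn σ hp, atp_lt hn σ hq] at h
  have := congrArg Fin.val (hσ h)
  exact this

/-- the switch -/
theorem switch {n : ℕ} (hn : 0 < n) (S : Finset (Slot n)) (σ : Fin n → Fin n)
    (hσ : Function.Bijective σ) (h : ∀ k < n, (gr S).Adj (atp hn σ k) (atp hn σ (k + 1)))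
    {i j : ℕ} (hij : i + 1 < j) (hj : j + 1 < n) (c1 : (gr S).Adj (atp hn σ i) (atp hn σ j))
    (c2 : (gr S).Adj (atp hn σ (i + 1)) (atp hn σ (j + 1))) (e : Slot n)
    (hee : e.1 = s(atp hn σ i, atp hn σ (i + 1))) : Ham (S.erase e) := by
  -- the reversal of the segment [i+1, j]
  set r : ℕ → ℕ := fun k => if i + 1 ≤ k ∧ k ≤ j then i + 1 + j - k else k with hr
  have hrn : ∀ k < n, r k < n := by
    intro k hk
    simp only [hr]
    split_ifs <;> omega
  have hrr : ∀ k, r (r k) = k := by
    intro k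
    simp only [hr]
    by_cases hc : i + 1 ≤ k ∧ k ≤ j
    · rw [if_pos hc, if_pos (by omega)]
      omega
    · rw [if_neg hc, if_neg hc]
  rw [ham_iff hn]
  set σ' : Fin n → Fin n := fun k => σ ⟨r k, hrn k k.2⟩ with hσ'
  have hbij : Function.Bijective σ' := by
    have h1 : Function.Injective σ' := by
      intro a b hab
      have h2 := congrArg Fin.val (hσ.1 hab)
      have h3 : r (r a) = r (r b) := congrArg r h2
      rw [hrr, hrr] at h3
      exact Fin.ext h3
    exact (Fintype.bijective_iff_injective_and_card _).2 ⟨h1, rfl⟩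
  have hat : ∀ k < n, atp hn σ' k = atp hn σ (r k) := by
    intro k hk
    rw [atp_lt hn σ' hk, atp_lt hn σ (hrn k hk)]
  have hr0 : r 0 = 0 := by
    simp only [hr]
    rw [if_neg (by omega)]
  have hat' : ∀ k < n, atp hn σ' (k + 1) = atp hn σ (if k + 1 = n then 0 else r (k + 1)) := by
    intro k hk
    by_cases hk1 : k + 1 = n
    · rw [if_pos hk1, hk1, atp_n, hat 0 hn, hr0]
    · rw [if_neg hk1, hat (k + 1) (by omega)]
  -- adjacency avoiding the slot e
  have hadj : ∀ p q, p < n → q < n → (gr S).Adj (atp hn σ p) (atp hn σ q) →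
      ¬ (p = i ∧ q = i + 1) → ¬ (p = i + 1 ∧ q = i) →
      (gr (S.erase e)).Adj (atp hn σ p) (atp hn σ q) := by
    rintro p q hp hq ⟨f, hf, hfe⟩ n1 n2
    refine ⟨f, Finset.mem_erase.2 ⟨?_, hf⟩, hfe⟩
    rintro rfl
    rw [hfe, Sym2.eq_iff] at hee
    rcases hee with ⟨h1, h2⟩ | ⟨h1, h2⟩
    · exact n1 ⟨atp_inj hn σ hσ.1 hp (by omega) h1, atp_inj hn σ hσ.1 hq (by omega) h2⟩
    · exact n2 ⟨atp_inj hn σ hσ.1 hp (by omega) h1, atp_inj hn σ hσ.1 hq (by omega) h2⟩
  refine ⟨σ', hbij, fun k hk => ?_⟩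
  rw [hat k hk, hat' k hk]
  have hcyc : ∀ m, m + 1 < n → (gr S).Adj (atp hn σ m) (atp hn σ (m + 1)) :=
    fun m hm => h m (by omega)
  by_cases hkn : k + 1 = n
  · rw [if_pos hkn]
    have h1 : r k = k := by
      simp only [hr]
      rw [if_neg (by omega)]
    rw [h1]
    apply hadj k 0 hk hn
    · have := h k hk
      rw [hkn, atp_n] at this
      exact this
    · omega
    · omega
  · rw [if_neg hkn]
    rcases lt_trichotomy k i with hki | hki | hki
    · have h1 : r k = k := by
        simp only [hr]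
        rw [if_neg (by omega)]
      have h2 : r (k + 1) = k + 1 := by
        simp only [hr]
        rw [if_neg (by omega)]
      rw [h1, h2]
      exact hadj _ _ hk (by omega) (hcyc k (by omega)) (by omega) (by omega)
    · have h1 : r k = i := by
        simp only [hr]
        rw [if_neg (by omega)]
        exact hki
      have h2 : r (k + 1) = j := by
        simp only [hr]
        rw [if_pos (by omega)]
        omega
      rw [h1, h2]
      exact hadj _ _ (by omega) (by omega) c1 (by omega) (by omega)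
    · rcases lt_trichotomy k j with hkj | hkj | hkj
      · have h1 : r k = i + 1 + j - k := by
          simp only [hr]
          rw [if_pos (by omega)]
        have h2 : r (k + 1) = i + 1 + j - (k + 1) := by
          simp only [hr]
          rw [if_pos (by omega)]
        rw [h1, h2]
        have h3 : i + 1 + j - k = (i + 1 + j - (k + 1)) + 1 := by omega
        rw [h3]
        apply hadj _ _ (by omega) (by omega) (hcyc _ (by omega)).symm (by omega) (by omega)
      · have h1 : r k = i + 1 := by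
          simp only [hr]
          rw [if_pos (by omega)]
          omega
        have h2 : r (k + 1) = j + 1 := by
          simp only [hr]
          rw [if_neg (by omega)]
          omega
        rw [h1, h2]
        exact hadj _ _ (by omega) (by omega) c2 (by omega) (by omega)
      · have h1 : r k = k := by
          simp only [hr]
          rw [if_neg (by omega)]
        have h2 : r (k + 1) = k + 1 := by
          simp only [hr]
          rw [if_neg (by omega)]
        rw [h1, h2]
        exact hadj _ _ hk (by omega) (hcyc k (by omega)) (by omega) (by omega)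

/-- subsets of `α` that contain none of the pairs `{a q, b q}`, `q ∈ Q`, all these elements being
distinct -/
theorem count_pairs {α ι : Type*} [Fintype α] [DecidableEq α] [DecidableEq ι] (Q : Finset ι)
    (a b : ι → α) (ha : ∀ q ∈ Q, ∀ q' ∈ Q, q ≠ q' → a q ≠ a q')
    (hb : ∀ q ∈ Q, ∀ q' ∈ Q, q ≠ q' → b q ≠ b q')
    (hab : ∀ q ∈ Q, ∀ q' ∈ Q, a q ≠ b q') :
    ((univ.filter (fun S : Finset α => ∀ q ∈ Q, ¬ (a q ∈ S ∧ b q ∈ S))).card : ℝ) ≤
      (3 / 4 : ℝ) ^ Q.card * 2 ^ (Fintype.card α) := by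
  induction Q using Finset.induction_on with
  | empty => simp
  | insert q Q hq ih =>
    have ih' := ih (fun x hx y hy => ha x (Finset.mem_insert_of_mem hx) y (Finset.mem_insert_of_mem hy))
      (fun x hx y hy => hb x (Finset.mem_insert_of_mem hx) y (Finset.mem_insert_of_mem hy))
      (fun x hx y hy => hab x (Finset.mem_insert_of_mem hx) y (Finset.mem_insert_of_mem hy))
    set T := univ.filter (fun S : Finset α => ∀ q ∈ Q, ¬ (a q ∈ S ∧ b q ∈ S)) with hT
    set T2 := T.filter (fun S => a q ∈ S ∧ b q ∈ S) with hT2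
    have hqQ : ∀ x ∈ Q, x ≠ q := fun x hx h => hq (h ▸ hx)
    have hne1 : ∀ x ∈ Q, a x ≠ a q := fun x hx =>
      ha x (Finset.mem_insert_of_mem hx) q (Finset.mem_insert_self _ _) (hqQ x hx)
    have hne2 : ∀ x ∈ Q, b x ≠ b q := fun x hx =>
      hb x (Finset.mem_insert_of_mem hx) q (Finset.mem_insert_self _ _) (hqQ x hx)
    have hne3 : ∀ x ∈ Q, a x ≠ b q := fun x hx =>
      hab x (Finset.mem_insert_of_mem hx) q (Finset.mem_insert_self _ _)
    have hne4 : ∀ x ∈ Q, b x ≠ a q := fun x hx =>
      (hab q (Finset.mem_insert_self _ _) x (Finset.mem_insert_of_mem hx)).symm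
    have hcover : T.card ≤ 4 * T2.card := by
      apply Finset.card_le_mul_card_image_of_maps_to (f := fun S => insert (a q) (insert (b q) S))
      · intro S hS
        rw [hT2, Finset.mem_filter]
        refine ⟨?_, by simp, by simp⟩
        rw [hT, Finset.mem_filter] at hS ⊢
        refine ⟨Finset.mem_univ _, fun x hx => ?_⟩
        have h1 := hS.2 x hx
        simp only [Finset.mem_insert]
        rintro ⟨h2, h3⟩
        apply h1
        refine ⟨?_, ?_⟩
        · rcases h2 with h2 | h2 | h2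
          · exact absurd h2 (hne1 x hx)
          · exact absurd h2 (hne3 x hx)
          · exact h2
        · rcases h3 with h3 | h3 | h3
          · exact absurd h3 (hne4 x hx)
          · exact absurd h3 (hne2 x hx)
          · exact h3
      · intro S' _
        have hsub : T.filter (fun S => insert (a q) (insert (b q) S) = S') ⊆
            {S', S'.erase (a q), S'.erase (b q), (S'.erase (a q)).erase (b q)} := by
          intro S hS
          have hS' := (Finset.mem_filter.1 hS).2
          simp only [Finset.mem_insert, Finset.mem_singleton]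
          have hab' : a q ≠ b q := hab q (Finset.mem_insert_self _ _) q (Finset.mem_insert_self _ _)
          by_cases h1 : a q ∈ S <;> by_cases h2 : b q ∈ S
          · left
            rw [← hS', Finset.insert_eq_of_mem h2, Finset.insert_eq_of_mem h1]
          · right; right; left
            rw [← hS', Finset.insert_eq_of_mem (Finset.mem_insert_of_mem h1), Finset.erase_insert h2]
          · right; left
            rw [← hS', Finset.insert_eq_of_mem h2, Finset.erase_insert h1]
          · right; right; right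
            rw [← hS', Finset.erase_insert (by
              rw [Finset.mem_insert, not_or]
              exact ⟨hab', h1⟩), Finset.erase_insert h2]
        exact (Finset.card_le_card hsub).trans Finset.card_le_four
    have hsplit : (univ.filter (fun S : Finset α => ∀ x ∈ insert q Q, ¬ (a x ∈ S ∧ b x ∈ S))) =
        T.filter (fun S => ¬ (a q ∈ S ∧ b q ∈ S)) := by
      ext S
      simp only [hT, Finset.mem_filter, Finset.mem_univ, true_and, Finset.mem_insert,
        forall_eq_or_imp]
      exact and_comm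
    rw [hsplit, Finset.card_insert_of_notMem hq]
    have h1 : T2.card + (T.filter (fun S => ¬ (a q ∈ S ∧ b q ∈ S))).card = T.card := by
      rw [hT2]
      exact Finset.card_filter_add_card_filter_not _
    have h2 : ((T.filter (fun S => ¬ (a q ∈ S ∧ b q ∈ S))).card : ℝ) ≤ 3 / 4 * T.card := by
      have h3 : (T.card : ℝ) ≤ 4 * T2.card := by exact_mod_cast hcover
      have h4 : (T2.card : ℝ) + (T.filter (fun S => ¬ (a q ∈ S ∧ b q ∈ S))).card = T.card := by
        exact_mod_cast h1
      linarith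
    calc ((T.filter (fun S => ¬ (a q ∈ S ∧ b q ∈ S))).card : ℝ) ≤ 3 / 4 * T.card := h2
      _ ≤ 3 / 4 * ((3 / 4 : ℝ) ^ Q.card * 2 ^ (Fintype.card α)) := by
          apply mul_le_mul_of_nonneg_left ih' (by norm_num)
      _ = (3 / 4 : ℝ) ^ (Q.card + 1) * 2 ^ (Fintype.card α) := by ring

/-- number of increasing pairs -/
theorem card_lt_pairs (I : Finset ℕ) :
    ((I ×ˢ I).filter (fun q => q.1 < q.2)).card = I.card.choose 2 := by
  have h1 : ((I ×ˢ I).filter (fun q => q.1 < q.2)).card =
      ((I ×ˢ I).filter (fun q => q.2 < q.1)).card := by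
    apply Finset.card_bij (fun q _ => (q.2, q.1))
    · intro q hq
      rw [Finset.mem_filter, Finset.mem_product] at hq ⊢
      exact ⟨⟨hq.1.2, hq.1.1⟩, hq.2⟩
    · intro q _ q' _ h
      rw [Prod.mk.injEq] at h
      exact Prod.ext h.2 h.1
    · intro q hq
      rw [Finset.mem_filter, Finset.mem_product] at hq
      refine ⟨(q.2, q.1), ?_, rfl⟩
      rw [Finset.mem_filter, Finset.mem_product]
      exact ⟨⟨hq.1.2, hq.1.1⟩, hq.2⟩
  have h2 : I.offDiag = (I ×ˢ I).filter (fun q => q.1 < q.2) ∪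
      (I ×ˢ I).filter (fun q => q.2 < q.1) := by
    ext q
    simp only [Finset.mem_offDiag, Finset.mem_union, Finset.mem_filter, Finset.mem_product]
    constructor
    · rintro ⟨h1, h2, h3⟩
      rcases lt_or_gt_of_ne h3 with h | h
      · exact Or.inl ⟨⟨h1, h2⟩, h⟩
      · exact Or.inr ⟨⟨h1, h2⟩, h⟩
    · rintro (⟨⟨h1, h2⟩, h⟩ | ⟨⟨h1, h2⟩, h⟩)
      · exact ⟨h1, h2, h.ne⟩
      · exact ⟨h1, h2, h.ne'⟩
  have h3 : Disjoint ((I ×ˢ I).filter (fun q => q.1 < q.2)) ((I ×ˢ I).filter (fun q => q.2 < q.1)) := by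
    rw [Finset.disjoint_left]
    intro q hq hq'
    have h4 := (Finset.mem_filter.1 hq).2
    have h5 := (Finset.mem_filter.1 hq').2
    omega
  have h4 := Finset.offDiag_card I
  rw [h2, Finset.card_union_of_disjoint h3, ← h1] at h4
  rw [Nat.choose_two_right, Nat.mul_sub_one]
  omega

/-- the slot of two vertices (with a default value) -/
def sl {n : ℕ} (d : Slot n) (u v : Fin n) : Slot n :=
  if h : (s(u, v) : Sym2 (Fin n)).IsDiag then d else ⟨s(u, v), h⟩

theorem sl_val {n : ℕ} (d : Slot n) {u v : Fin n} (h : u ≠ v) : (sl d u v).1 = s(u, v) := by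
  unfold sl
  rw [dif_neg (by rwa [Sym2.mk_isDiag_iff])]

theorem adj_of_sl {n : ℕ} (S : Finset (Slot n)) (d : Slot n) {u v : Fin n} (h : u ≠ v)
    (hm : sl d u v ∈ S) : (gr S).Adj u v := ⟨_, hm, sl_val d h⟩

/-- for a fixed cyclic sequence and a fixed index set without consecutive elements -/
theorem count_fixed {n : ℕ} (hn : 0 < n) (d : Slot n) (σ : Fin n → Fin n)
    (hσ : Function.Injective σ) (I : Finset ℕ) (hI : ∀ i ∈ I, i + 1 < n)
    (hI2 : ∀ i ∈ I, i + 1 ∉ I) :
    ((univ.filter (fun S : Finset (Slot n) => ∀ q ∈ (I ×ˢ I).filter (fun q => q.1 < q.2),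
      ¬ (sl d (atp hn σ q.1) (atp hn σ q.2) ∈ S ∧
        sl d (atp hn σ (q.1 + 1)) (atp hn σ (q.2 + 1)) ∈ S))).card : ℝ) ≤
      (3 / 4 : ℝ) ^ (I.card.choose 2) * 2 ^ (Fintype.card (Slot n)) := by
  rw [← card_lt_pairs]
  have hmem : ∀ q ∈ (I ×ˢ I).filter (fun q : ℕ × ℕ => q.1 < q.2), q.1 ∈ I ∧ q.2 ∈ I ∧ q.1 < q.2 := by
    intro q hq
    rw [Finset.mem_filter, Finset.mem_product] at hq
    exact ⟨hq.1.1, hq.1.2, hq.2⟩
  have hval : ∀ p q : ℕ, p < q → q < n → (sl d (atp hn σ p) (atp hn σ q)).1 =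
      s(atp hn σ p, atp hn σ q) := by
    intro p q hpq hq
    apply sl_val
    intro h
    have := atp_inj hn σ hσ (by omega) hq h
    omega
  have key : ∀ p q p' q' : ℕ, p < q → q < n → p' < q' → q' < n →
      sl d (atp hn σ p) (atp hn σ q) = sl d (atp hn σ p') (atp hn σ q') → p = p' ∧ q = q' := by
    intro p q p' q' h1 h2 h3 h4 h
    have h5 := congrArg Subtype.val h
    rw [hval p q h1 h2, hval p' q' h3 h4, Sym2.eq_iff] at h5
    rcases h5 with ⟨h6, h7⟩ | ⟨h6, h7⟩
    · exact ⟨atp_inj hn σ hσ (by omega) (by omega) h6, atp_inj hn σ hσ (by omega) (by omega) h7⟩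
    · have h8 := atp_inj hn σ hσ (by omega) (by omega) h6
      have h9 := atp_inj hn σ hσ (by omega) (by omega) h7
      omega
  apply count_pairs
  · intro q hq q' hq' hne heq
    obtain ⟨a1, a2, a3⟩ := hmem q hq
    obtain ⟨b1, b2, b3⟩ := hmem q' hq'
    have h1 := hI _ a2
    have h2 := hI _ b2
    have := key _ _ _ _ a3 (by omega) b3 (by omega) heq
    exact hne (Prod.ext this.1 this.2)
  · intro q hq q' hq' hne heq
    obtain ⟨a1, a2, a3⟩ := hmem q hq
    obtain ⟨b1, b2, b3⟩ := hmem q' hq'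
    have h1 := hI _ a2
    have h2 := hI _ b2
    have := key _ _ _ _ (by omega) (by omega) (by omega) (by omega) heq
    exact hne (Prod.ext (by omega) (by omega))
  · intro q hq q' hq' heq
    obtain ⟨a1, a2, a3⟩ := hmem q hq
    obtain ⟨b1, b2, b3⟩ := hmem q' hq'
    have h1 := hI _ a2
    have h2 := hI _ b2
    have := key _ _ _ _ a3 (by omega) (by omega) (by omega) heq
    exact hI2 _ b1 (this.1 ▸ a1)

/-- among many indices there are many of one parity -/
theorem exists_parity {J : Finset ℕ} {j : ℕ} (h : 2 * j ≤ J.card) :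
    ∃ I ⊆ J, I.card = j ∧ ∀ i ∈ I, i + 1 ∉ I := by
  have h1 : (J.filter (fun i => i % 2 = 0)).card + (J.filter (fun i => ¬ i % 2 = 0)).card = J.card :=
    Finset.card_filter_add_card_filter_not _
  by_cases h2 : j ≤ (J.filter (fun i => i % 2 = 0)).card
  · obtain ⟨I, hI, hIc⟩ := Finset.exists_subset_card_eq h2
    refine ⟨I, hI.trans (Finset.filter_subset _ _), hIc, fun i hi hi' => ?_⟩
    have h3 := (Finset.mem_filter.1 (hI hi)).2
    have h4 := (Finset.mem_filter.1 (hI hi')).2
    omega
  · obtain ⟨I, hI, hIc⟩ := Finset.exists_subset_card_eq (show j ≤ (J.filter (fun i => ¬ i % 2 = 0)).card by omega)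
    refine ⟨I, hI.trans (Finset.filter_subset _ _), hIc, fun i hi hi' => ?_⟩
    have h3 := (Finset.mem_filter.1 (hI hi)).2
    have h4 := (Finset.mem_filter.1 (hI hi')).2
    omega

theorem count_many {n : ℕ} (hn : 3 ≤ n) (j : ℕ) :
    ((univ.filter (fun S : Finset (Slot n) => Ham S ∧ 2 * j + 1 ≤ (crit Ham S).card)).card : ℝ) ≤
      n.factorial * 2 ^ n * (3 / 4 : ℝ) ^ (j.choose 2) * 2 ^ (n.choose 2) := by
  have hn0 : 0 < n := by omega
  have hcard : Fintype.card (Slot n) = n.choose 2 := by
    have := Sym2.card_subtype_not_diag (α := Fin n)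
    rw [Fintype.card_fin] at this
    exact this
  have hdne : ¬ (s((⟨0, by omega⟩ : Fin n), ⟨1, by omega⟩)).IsDiag := by
    rw [Sym2.mk_isDiag_iff]
    intro h
    have := congrArg Fin.val h
    simp at this
  set d : Slot n := ⟨s((⟨0, by omega⟩ : Fin n), ⟨1, by omega⟩), hdne⟩ with hd
  set Z : Equiv.Perm (Fin n) × Finset ℕ → Finset (Finset (Slot n)) := fun z =>
    univ.filter (fun S : Finset (Slot n) => ∀ q ∈ (z.2 ×ˢ z.2).filter (fun q => q.1 < q.2),
      ¬ (sl d (atp hn0 z.1 q.1) (atp hn0 z.1 q.2) ∈ S ∧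
        sl d (atp hn0 z.1 (q.1 + 1)) (atp hn0 z.1 (q.2 + 1)) ∈ S)) with hZ
  set W : Finset (Equiv.Perm (Fin n) × Finset ℕ) := univ ×ˢ ((range n).powerset.filter
    (fun I => I.card = j ∧ (∀ i ∈ I, i + 1 < n) ∧ ∀ i ∈ I, i + 1 ∉ I)) with hW
  have hsub : univ.filter (fun S : Finset (Slot n) => Ham S ∧ 2 * j + 1 ≤ (crit Ham S).card) ⊆
      W.biUnion Z := by
    intro S hS
    rw [Finset.mem_filter] at hS
    obtain ⟨-, hSH, hSc⟩ := hS
    obtain ⟨σ, hσ, h⟩ := (ham_iff hn0 S).1 hSH
    set J := (range n).filter (fun k => ∃ e ∈ crit Ham S,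
      e.1 = s(atp hn0 σ k, atp hn0 σ (k + 1))) with hJ
    have hJc : 2 * j + 1 ≤ J.card := by
      refine hSc.trans ?_
      have hk : ∀ e ∈ crit Ham S, ∃ k < n, e.1 = s(atp hn0 σ k, atp hn0 σ (k + 1)) :=
        fun e he => crit_on_cycle hn0 S σ hσ h e he
      choose! k hk1 hk2 using hk
      apply Finset.card_le_card_of_injOn k
      · intro e he
        rw [Finset.mem_coe, hJ, Finset.mem_filter, Finset.mem_range]
        exact ⟨hk1 e he, e, he, hk2 e he⟩
      · intro e he f hf hef
        apply Subtype.ext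
        rw [hk2 e he, hk2 f hf, hef]
    have hJ' : 2 * j ≤ (J.erase (n - 1)).card := by
      have := Finset.pred_card_le_card_erase (s := J) (a := n - 1)
      omega
    obtain ⟨I, hIJ, hIc, hI2⟩ := exists_parity hJ'
    have hIn : ∀ i ∈ I, i + 1 < n := by
      intro i hi
      have h1 := Finset.mem_erase.1 (hIJ hi)
      have h2 := Finset.mem_range.1 (Finset.mem_filter.1 h1.2).1
      omega
    rw [Finset.mem_biUnion]
    refine ⟨(Equiv.ofBijective σ hσ, I), ?_, ?_⟩
    · rw [hW, Finset.mem_product]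
      refine ⟨Finset.mem_univ _, ?_⟩
      rw [Finset.mem_filter, Finset.mem_powerset]
      refine ⟨fun i hi => ?_, hIc, hIn, hI2⟩
      rw [Finset.mem_range]
      have := hIn i hi
      omega
    · rw [hZ, Finset.mem_filter]
      refine ⟨Finset.mem_univ _, fun q hq => ?_⟩
      rw [Finset.mem_filter, Finset.mem_product] at hq
      obtain ⟨⟨hq1, hq2⟩, hq3⟩ := hq
      dsimp only at hq1 hq2
      rintro ⟨m1, m2⟩
      change sl d (atp hn0 σ q.1) (atp hn0 σ q.2) ∈ S at m1
      change sl d (atp hn0 σ (q.1 + 1)) (atp hn0 σ (q.2 + 1)) ∈ S at m2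
      have h1 := hIn _ hq1
      have h2 := hIn _ hq2
      have h3 : q.1 + 1 ≠ q.2 := fun h' => hI2 _ hq1 (h' ▸ hq2)
      have hne1 : atp hn0 σ q.1 ≠ atp hn0 σ q.2 := fun h' => by
        have := atp_inj hn0 σ hσ.1 (by omega) (by omega) h'
        omega
      have hne2 : atp hn0 σ (q.1 + 1) ≠ atp hn0 σ (q.2 + 1) := fun h' => by
        have := atp_inj hn0 σ hσ.1 (by omega) (by omega) h'
        omega
      have h4 := (Finset.mem_filter.1 (Finset.mem_erase.1 (hIJ hq1)).2).2
      obtain ⟨e, he, hee⟩ := h4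
      have h5 := switch hn0 S σ hσ h (show q.1 + 1 < q.2 by omega) h2 (adj_of_sl S d hne1 m1)
        (adj_of_sl S d hne2 m2) e hee
      exact (Finset.mem_filter.1 he).2 h5
  have h1 : ((univ.filter (fun S : Finset (Slot n) => Ham S ∧ 2 * j + 1 ≤ (crit Ham S).card)).card : ℝ) ≤
      ∑ z ∈ W, ((Z z).card : ℝ) := by
    have := (Finset.card_le_card hsub).trans Finset.card_biUnion_le
    exact_mod_cast this
  refine h1.trans ?_
  have h2 : ∀ z ∈ W, ((Z z).card : ℝ) ≤ (3 / 4 : ℝ) ^ (j.choose 2) * 2 ^ (n.choose 2) := by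
    intro z hz
    rw [hW, Finset.mem_product, Finset.mem_filter] at hz
    obtain ⟨-, -, hz1, hz2, hz3⟩ := hz
    have := count_fixed hn0 d z.1 z.1.injective z.2 hz2 hz3
    rw [hz1, hcard] at this
    exact this
  refine (Finset.sum_le_card_nsmul _ _ _ h2).trans ?_
  rw [nsmul_eq_mul]
  have h3 : (W.card : ℝ) ≤ n.factorial * 2 ^ n := by
    have : W.card ≤ n.factorial * 2 ^ n := by
      rw [hW, Finset.card_product, Finset.card_univ, Fintype.card_perm, Fintype.card_fin]
      apply Nat.mul_le_mul_left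
      refine (Finset.card_filter_le _ _).trans ?_
      rw [Finset.card_powerset, Finset.card_range]
    exact_mod_cast this
  calc (W.card : ℝ) * ((3 / 4 : ℝ) ^ (j.choose 2) * 2 ^ (n.choose 2)) ≤
        (n.factorial * 2 ^ n) * ((3 / 4 : ℝ) ^ (j.choose 2) * 2 ^ (n.choose 2)) :=
        mul_le_mul_of_nonneg_right h3 (by positivity)
    _ = n.factorial * 2 ^ n * (3 / 4 : ℝ) ^ (j.choose 2) * 2 ^ (n.choose 2) := by ring

end Pool.Agent.HamSp
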