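import Pool.Agent.Lib.MP_e65231_co.Defs

/-!
# Hamiltonicity in the sense of Mathlib and cyclic lists; transfer (MP_e65231_co, module EQ, helper75)
-/

set_option autoImplicit false

noncomputable section

open scoped Classical
open Finset

namespace Pool.Agent.HamSp

theorem eq_isHamiltonian_of_cycL {V : Type*} [Fintype V] [DecidableEq V] (G : SimpleGraph V)
    (h3 : 3 ≤ Fintype.card V) {l : List V} (hl : CycL G l) : G.IsHamiltonian := by
  obtain ⟨hnd, hall, hch, hclose⟩ := hl
  have hlen : l.length = Fintype.card V := by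
    rw [← List.toFinset_card_of_nodup hnd]
    have : l.toFinset = Finset.univ := by
      ext v
      simp [hall v]
    rw [this, Finset.card_univ]
  have hne : l ≠ [] := by
    intro h
    rw [h, List.length_nil] at hlen
    omega
  intro _
  obtain ⟨p, hp⟩ : ∃ p : G.Walk (l.head hne) (l.getLast hne), p.support = l :=
    ⟨SimpleGraph.Walk.ofSupport l hne hch, SimpleGraph.Walk.support_ofSupport hne hch⟩
  have hpath : p.IsPath := by
    rw [SimpleGraph.Walk.isPath_def, hp]
    exact hnd
  have hpl : p.length + 1 = l.length := by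
    have h4 := SimpleGraph.Walk.length_support p
    rw [hp] at h4
    exact h4.symm
  have hadj : G.Adj (l.getLast hne) (l.head hne) := hclose hne
  have hcyc : (SimpleGraph.Walk.cons hadj p).IsCycle := by
    rw [SimpleGraph.Walk.cons_isCycle_iff]
    refine ⟨hpath, fun hmem => ?_⟩
    rw [Sym2.eq_swap] at hmem
    have := hpath.length_eq_one_of_mem_edges hmem
    omega
  refine ⟨_, SimpleGraph.Walk.cons hadj p, ?_⟩
  rw [SimpleGraph.Walk.isHamiltonianCycle_iff_isCycle_and_length_eq]
  refine ⟨hcyc, ?_⟩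
  rw [SimpleGraph.Walk.length_cons]
  omega

theorem eq_cycL_of_isHamiltonian {V : Type*} [Fintype V] [DecidableEq V] (G : SimpleGraph V)
    (h3 : 3 ≤ Fintype.card V) (h : G.IsHamiltonian) : ∃ l, CycL G l := by
  obtain ⟨a, p, hp⟩ := h (by omega)
  have hc := hp.isCycle
  have hnn : ¬ p.Nil := hc.not_nil
  have hs : p.support = a :: p.support.tail := (SimpleGraph.Walk.cons_tail_support p).symm
  have hlen := hp.length_eq
  have hne : p.support.tail ≠ [] := by
    intro h0
    have h1 := SimpleGraph.Walk.length_support p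
    rw [hs, h0, List.length_singleton] at h1
    omega
  refine ⟨p.support.tail, hc.support_nodup, ?_, ?_, ?_⟩
  · intro v
    have h1 := (SimpleGraph.Walk.isHamiltonianCycle_iff_isCycle_and_support_count_tail_eq_one.1
      hp).2 v
    exact List.count_pos_iff.1 (by omega)
  · have h1 := p.isChain_adj_support
    rw [hs] at h1
    exact h1.tail
  · intro hne'
    have h1 : p.support.tail.getLast hne' = a := by
      have h2 : p.support.getLast p.support_ne_nil = a := p.getLast_support
      exact (List.getLast_tail hne').trans h2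
    rw [h1]
    have h3 := p.isChain_adj_support
    obtain ⟨b, t, ht⟩ := List.exists_cons_of_ne_nil hne
    rw [hs, ht] at h3
    have h4 := (List.isChain_cons_cons.1 h3).1
    have h5 : p.support.tail.head hne' = b := by
      simp only [ht, List.head_cons]
    rw [h5]
    exact h4

theorem eq_cycL_iff {V : Type*} [Fintype V] [DecidableEq V] (G : SimpleGraph V) (h3 : 3 ≤ Fintype.card V) :
    (∃ l, CycL G l) ↔ G.IsHamiltonian :=
  ⟨fun ⟨_, hl⟩ => eq_isHamiltonian_of_cycL G h3 hl, eq_cycL_of_isHamiltonian G h3⟩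

/-! MODULE EQ: translation to Mathlib's notions. -/
theorem isHamiltonian_iff {n : ℕ} (hn : 3 ≤ n) (G : SimpleGraph (Fin n)) :
    G.IsHamiltonian ↔ ∃ l, CycL G l :=
  (eq_cycL_iff G (by rw [Fintype.card_fin]; exact hn)).symm

theorem card_slot (n : ℕ) : Fintype.card (Slot n) = n.choose 2 := by
  have h := Sym2.card_subtype_not_diag (α := Fin n)
  rw [Fintype.card_fin] at h
  rw [← h]

/-- the slots of a graph -/
def eqSl {n : ℕ} (G : SimpleGraph (Fin n)) : Finset (Slot n) :=
  univ.filter (fun e => e.1 ∈ G.edgeSet)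

theorem eq_gr_adj {n : ℕ} (S : Finset (Slot n)) (a b : Fin n) :
    (gr S).Adj a b ↔ ∃ e ∈ S, e.1 = s(a, b) := Iff.rfl

theorem eq_gr_sl {n : ℕ} (G : SimpleGraph (Fin n)) : gr (eqSl G) = G := by
  ext a b
  rw [eq_gr_adj]
  constructor
  · rintro ⟨e, he, h⟩
    have h1 := (mem_filter.1 he).2
    rw [h] at h1
    exact h1
  · intro h
    refine ⟨⟨s(a, b), ?_⟩, ?_, rfl⟩
    · rw [Sym2.mk_isDiag_iff]
      exact h.ne
    · rw [eqSl, mem_filter]
      exact ⟨mem_univ _, h⟩

theorem eq_sl_subset {n : ℕ} {G G' : SimpleGraph (Fin n)} (h : eqSl G ⊆ eqSl G') : G ≤ G' := by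
  rw [← eq_gr_sl G, ← eq_gr_sl G']
  intro a b hab
  obtain ⟨e, he, h'⟩ := (eq_gr_adj _ _ _).1 hab
  exact (eq_gr_adj _ _ _).2 ⟨e, h he, h'⟩

theorem eq_mem_edgeSet {n : ℕ} (S : Finset (Slot n)) (e : Sym2 (Fin n)) :
    e ∈ (gr S).edgeSet ↔ e ∈ S.image Subtype.val := by
  induction e using Sym2.ind with
  | _ a b =>
    rw [SimpleGraph.mem_edgeSet, eq_gr_adj, mem_image]

theorem eq_card_edge {n : ℕ} (S : Finset (Slot n)) : (gr S).edgeFinset.card = S.card := by
  have h : (gr S).edgeFinset = S.image Subtype.val := by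
    ext e
    rw [SimpleGraph.mem_edgeFinset, eq_mem_edgeSet]
  rw [h, card_image_of_injective _ Subtype.val_injective]

theorem eq_gr_injective {n : ℕ} {S T : Finset (Slot n)} (h : gr S = gr T) : S = T := by
  have h1 : S.image Subtype.val = T.image Subtype.val := by
    ext e
    rw [← eq_mem_edgeSet, ← eq_mem_edgeSet, h]
  exact Finset.image_injective Subtype.val_injective h1

/-- transfer of the antichain statement from sets of slots to simple graphs -/
theorem transfer {n : ℕ} (hn : 3 ≤ n) (K : ℕ)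
    (h : ∀ A : Finset (Finset (Slot n)), (∀ H ∈ A, Ham H) →
      IsAntichain (· ⊆ ·) (A : Set (Finset (Slot n))) →
      A.card ≤ (univ.filter (fun H : Finset (Slot n) => Ham H ∧ H.card = K)).card)
    (A : Finset (SimpleGraph (Fin n))) (hA : ∀ G ∈ A, G.IsHamiltonian)
    (hanti : IsAntichain (· ≤ ·) (A : Set (SimpleGraph (Fin n)))) :
    A.card ≤ (univ.filter (fun G : SimpleGraph (Fin n) =>
      G.IsHamiltonian ∧ G.edgeFinset.card = K)).card := by
  have hinj : Function.Injective (eqSl : SimpleGraph (Fin n) → Finset (Slot n)) := by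
    intro G G' hG
    rw [← eq_gr_sl G, ← eq_gr_sl G', hG]
  have h1 : A.card = (A.image eqSl).card := (card_image_of_injective _ hinj).symm
  rw [h1]
  refine (h (A.image eqSl) ?_ ?_).trans ?_
  · intro H hH
    obtain ⟨G, hG, rfl⟩ := mem_image.1 hH
    have h2 := (isHamiltonian_iff hn G).1 (hA G hG)
    unfold Ham
    rw [eq_gr_sl]
    exact h2
  · intro H hH H' hH' hne hle
    rw [mem_coe, mem_image] at hH hH'
    obtain ⟨G, hG, rfl⟩ := hH
    obtain ⟨G', hG', rfl⟩ := hH'
    have hne' : G ≠ G' := fun h => hne (by rw [h])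
    exact hanti (mem_coe.2 hG) (mem_coe.2 hG') hne' (eq_sl_subset hle)
  · refine card_le_card_of_injOn gr ?_ ?_
    · intro H hH
      rw [mem_coe, mem_filter] at hH ⊢
      refine ⟨mem_univ _, (isHamiltonian_iff hn (gr H)).2 hH.2.1, ?_⟩
      exact (eq_card_edge H).trans hH.2.2
    · intro H _ H' _ heq
      exact eq_gr_injective heq

end Pool.Agent.HamSp
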