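import Pool.Agent.Lib.MP_e65231_co.Asm
import Pool.Agent.Lib.MP_e65231_co.Count
import Pool.Agent.Lib.MP_e65231_co.Defect
import Pool.Agent.Lib.MP_e65231_co.Switch
import Pool.Agent.Lib.MP_e65231_co.Transfer

/-!
# The final asymptotic step for MP_e65231_co
-/

noncomputable section

open scoped Classical FinsetFamily
open Finset

namespace Pool.Agent.HamSp

theorem fin_choose_step {n N k m : ℕ} (hn : 9 ≤ n) (hN : N = n.choose 2) (hk : k < m)
    (h2 : 2 * m ≤ N + n) :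
    (1 - 4 / ((n : ℝ) + 1)) * (N.choose k : ℝ) ≤ (N.choose (k + 1) : ℝ) := by
  have hNr : (N : ℝ) = n * (n - 1) / 2 := by rw [hN]; exact Nat.cast_choose_two ℝ n
  have hnr : (9 : ℝ) ≤ n := by exact_mod_cast hn
  have hnN : n ≤ N := by
    have h9 : (n : ℝ) ≤ N := by rw [hNr]; nlinarith
    exact_mod_cast h9
  have hkN : k ≤ N := by omega
  have h3 : (N.choose (k + 1) : ℝ) * (k + 1) = N.choose k * ((N : ℝ) - k) := by
    have h4 := Nat.choose_succ_right_eq N k
    have h5 : ((N - k : ℕ) : ℝ) = (N : ℝ) - k := Nat.cast_sub hkN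
    rw [← h5]
    exact_mod_cast h4
  have hk1 : (0 : ℝ) < (k : ℝ) + 1 := by positivity
  have hkm : 2 * ((k : ℝ) + 1) ≤ N + n := by
    have : 2 * (k + 1) ≤ N + n := by omega
    exact_mod_cast this
  have hq : (1 - 4 / ((n : ℝ) + 1)) * (k + 1) ≤ (N : ℝ) - k := by
    have hn1 : (0 : ℝ) < (n : ℝ) + 1 := by positivity
    have e1 : 1 - 4 / ((n : ℝ) + 1) = (n - 3) / (n + 1) := by field_simp; ring
    rw [e1, div_mul_eq_mul_div, div_le_iff₀ hn1]
    nlinarith
  have hc : (0 : ℝ) ≤ N.choose k := Nat.cast_nonneg _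
  have h6 : (1 - 4 / ((n : ℝ) + 1)) * (N.choose k : ℝ) * (k + 1) ≤
      (N.choose (k + 1) : ℝ) * (k + 1) := by
    rw [h3]
    calc (1 - 4 / ((n : ℝ) + 1)) * (N.choose k : ℝ) * (k + 1)
        = N.choose k * ((1 - 4 / ((n : ℝ) + 1)) * (k + 1)) := by ring
      _ ≤ N.choose k * ((N : ℝ) - k) := mul_le_mul_of_nonneg_left hq hc
  exact le_of_mul_le_mul_right h6 hk1

theorem choose_lower {n m : ℕ} (hn : 9 ≤ n) (h1 : n.choose 2 ≤ 2 * m)
    (h2 : 2 * m ≤ n.choose 2 + n) :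
    (2 : ℝ) ^ (n.choose 2) ≤ 1000 * (n.choose 2 + 1) * ((n.choose 2).choose m : ℝ) := by
  set N := n.choose 2 with hN
  set h := N / 2 with hh
  have hnr : (9 : ℝ) ≤ n := by exact_mod_cast hn
  have hmid : (2 : ℝ) ^ N ≤ (N + 1) * (N.choose h : ℝ) := by
    have h3 : 2 ^ N ≤ (N + 1) * N.choose h := by
      rw [← Nat.sum_range_choose N]
      calc ∑ i ∈ range (N + 1), N.choose i ≤ ∑ _i ∈ range (N + 1), N.choose h :=
            Finset.sum_le_sum (fun i _ => Nat.choose_le_middle i N)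
        _ = (N + 1) * N.choose h := by rw [Finset.sum_const, Finset.card_range, smul_eq_mul]
    exact_mod_cast h3
  have hq0 : (0 : ℝ) ≤ 1 - 4 / ((n : ℝ) + 1) := by
    rw [sub_nonneg, div_le_one (by positivity)]
    linarith
  have hind : ∀ t : ℕ, h + t ≤ m →
      (1 - 4 / ((n : ℝ) + 1)) ^ t * (N.choose h : ℝ) ≤ (N.choose (h + t) : ℝ) := by
    intro t
    induction t with
    | zero => intro _; simp
    | succ t ih =>
      intro ht
      have h4 := ih (by omega)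
      have h5 := fin_choose_step (k := h + t) hn hN (by omega) h2
      calc (1 - 4 / ((n : ℝ) + 1)) ^ (t + 1) * (N.choose h : ℝ)
          = (1 - 4 / ((n : ℝ) + 1)) * ((1 - 4 / ((n : ℝ) + 1)) ^ t * (N.choose h : ℝ)) := by ring
        _ ≤ (1 - 4 / ((n : ℝ) + 1)) * (N.choose (h + t) : ℝ) :=
            mul_le_mul_of_nonneg_left h4 hq0
        _ ≤ _ := h5
  have hhm : h ≤ m := by omega
  have h6 := hind (m - h) (by omega)
  rw [show h + (m - h) = m by omega] at h6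
  have ht : 2 * (m - h) ≤ n + 1 := by omega
  have hexp : Real.exp (-4) ≤ (1 - 4 / ((n : ℝ) + 1)) ^ (m - h) := by
    have hx : Real.exp (-(8 / ((n : ℝ) + 1))) ≤ 1 - 4 / ((n : ℝ) + 1) := by
      have hx0 : (0 : ℝ) ≤ 4 / ((n : ℝ) + 1) := by positivity
      have hx1 : 4 / ((n : ℝ) + 1) ≤ 1 / 2 := by
        rw [div_le_div_iff₀ (by positivity) (by norm_num)]
        linarith
      have h7 : 1 + 8 / ((n : ℝ) + 1) ≤ Real.exp (8 / ((n : ℝ) + 1)) := by
        have := Real.add_one_le_exp (8 / ((n : ℝ) + 1))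
        linarith
      have h8 : (8 : ℝ) / ((n : ℝ) + 1) = 2 * (4 / ((n : ℝ) + 1)) := by ring
      rw [Real.exp_neg, inv_le_comm₀ (Real.exp_pos _) (by linarith)]
      calc (1 - 4 / ((n : ℝ) + 1))⁻¹ ≤ 1 + 8 / ((n : ℝ) + 1) := by
            rw [inv_le_iff_one_le_mul₀ (by linarith), h8]
            nlinarith
        _ ≤ _ := h7
    calc Real.exp (-4) ≤ Real.exp (-(8 / ((n : ℝ) + 1)) * ((m - h : ℕ) : ℝ)) := by
          apply Real.exp_le_exp.2
          have ht' : 2 * ((m - h : ℕ) : ℝ) ≤ n + 1 := by exact_mod_cast ht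
          have hp : (0 : ℝ) < (n : ℝ) + 1 := by positivity
          have : 8 / ((n : ℝ) + 1) * ((m - h : ℕ) : ℝ) ≤ 4 := by
            rw [div_mul_eq_mul_div, div_le_iff₀ hp]
            linarith
          linarith
      _ = (Real.exp (-(8 / ((n : ℝ) + 1)))) ^ (m - h) := by
          rw [← Real.exp_nat_mul]; ring_nf
      _ ≤ _ := pow_le_pow_left₀ (Real.exp_pos _).le hx _
  have hexp4 : (1 : ℝ) ≤ 1000 * Real.exp (-4) := by
    have h9 : Real.exp 4 ≤ 1000 := by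
      have h10 : Real.exp 4 = Real.exp 1 ^ 4 := by rw [← Real.exp_nat_mul]; norm_num
      rw [h10]
      have h11 := Real.exp_one_lt_d9
      calc Real.exp 1 ^ 4 ≤ (2.7182818286 : ℝ) ^ 4 :=
            pow_le_pow_left₀ (Real.exp_pos _).le h11.le _
        _ ≤ 1000 := by norm_num
    rw [Real.exp_neg, ← div_eq_mul_inv, le_div_iff₀ (Real.exp_pos _)]
    linarith
  have hc0 : (0 : ℝ) ≤ N.choose h := Nat.cast_nonneg _
  have hfin : (N.choose h : ℝ) ≤ 1000 * (N.choose m : ℝ) := by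
    calc (N.choose h : ℝ) = 1 * N.choose h := by ring
      _ ≤ 1000 * Real.exp (-4) * N.choose h := mul_le_mul_of_nonneg_right hexp4 hc0
      _ = 1000 * (Real.exp (-4) * N.choose h) := by ring
      _ ≤ 1000 * ((1 - 4 / ((n : ℝ) + 1)) ^ (m - h) * N.choose h) := by
          apply mul_le_mul_of_nonneg_left _ (by norm_num)
          exact mul_le_mul_of_nonneg_right hexp hc0
      _ ≤ 1000 * (N.choose m : ℝ) := mul_le_mul_of_nonneg_left h6 (by norm_num)
  calc (2 : ℝ) ^ N ≤ (N + 1) * (N.choose h : ℝ) := hmid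
    _ ≤ (N + 1) * (1000 * (N.choose m : ℝ)) :=
        mul_le_mul_of_nonneg_left hfin (by positivity)
    _ = _ := by ring

theorem fin_exists_n0 : ∃ n₀ : ℕ, 10 ^ 8 ≤ n₀ ∧
    ∀ n ≥ n₀, 640 * Real.log (n : ℝ) ≤ (n : ℝ) ^ (1 / 4 : ℝ) := by
  have h1 := (isLittleO_log_rpow_atTop (r := (1 / 4 : ℝ)) (by norm_num)).bound
    (show (0 : ℝ) < 1 / 640 by norm_num)
  have h2 := (tendsto_natCast_atTop_atTop (R := ℝ)).eventually h1
  obtain ⟨n1, hn1⟩ := Filter.eventually_atTop.1 h2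
  refine ⟨max n1 (10 ^ 8), le_max_right _ _, fun n hn => ?_⟩
  have h3 := hn1 n (le_trans (le_max_left _ _) hn)
  rw [Real.norm_eq_abs, Real.norm_eq_abs] at h3
  have h4 : |(n : ℝ) ^ (1 / 4 : ℝ)| = (n : ℝ) ^ (1 / 4 : ℝ) :=
    abs_of_nonneg (Real.rpow_nonneg (Nat.cast_nonneg n) _)
  rw [h4] at h3
  have h5 := le_abs_self (Real.log (n : ℝ))
  linarith

theorem fin_E_bound {n N d : ℕ} (hn : 10 ^ 8 ≤ n) (hN : N = n.choose 2) (hd : d = n / 10) :
    (n : ℝ) * (n * 9 ^ (2 * d) * (5 / 9 : ℝ) ^ (n - 1) + 4 ^ n * 9 * (5 / 9 : ℝ) ^ (d ^ 2)) *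
      (1000 * (N + 1)) ≤ Real.exp (-(n / 20 : ℝ)) := by
  have hnr : (10 : ℝ) ^ 8 ≤ n := by exact_mod_cast hn
  have hd1 : 10 * d ≤ n := by omega
  have hd2 : n ≤ 10 * d + 9 := by omega
  have hd3 : 30 ≤ d := by
    have : 10 ^ 8 ≤ 10 * d + 9 := le_trans hn hd2
    omega
  have hdr : (n : ℝ) ≤ 10 * d + 9 := by exact_mod_cast hd2
  have t1 : (9 : ℝ) ^ (2 * d) * (5 / 9 : ℝ) ^ (n - 1) ≤ 2 * (1 / 4 : ℝ) ^ d := by
    have a1 : (5 / 9 : ℝ) ^ (n - 1) ≤ (5 / 9 : ℝ) ^ (10 * d - 1) :=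
      pow_le_pow_of_le_one (by norm_num) (by norm_num) (by omega)
    have a2 : (5 / 9 : ℝ) ^ (10 * d - 1) = 9 / 5 * (5 / 9 : ℝ) ^ (10 * d) := by
      have : 10 * d = (10 * d - 1) + 1 := by omega
      conv_rhs => rw [this, pow_succ]
      ring
    calc (9 : ℝ) ^ (2 * d) * (5 / 9 : ℝ) ^ (n - 1)
        ≤ (9 : ℝ) ^ (2 * d) * (9 / 5 * (5 / 9 : ℝ) ^ (10 * d)) := by
          rw [← a2]
          exact mul_le_mul_of_nonneg_left a1 (by positivity)
      _ = 9 / 5 * ((9 : ℝ) ^ 2 * (5 / 9 : ℝ) ^ 10) ^ d := by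
          rw [mul_pow, ← pow_mul, ← pow_mul]; ring
      _ ≤ 2 * (1 / 4 : ℝ) ^ d := by
          apply mul_le_mul (by norm_num) _ (by positivity) (by norm_num)
          exact pow_le_pow_left₀ (by norm_num) (by norm_num) d
  have t2 : (4 : ℝ) ^ n * (5 / 9 : ℝ) ^ (d ^ 2) ≤ 4 ^ 10 * (1 / 4 : ℝ) ^ d := by
    have b1 : (4 : ℝ) ^ n ≤ 4 ^ (10 * (d + 1)) := pow_le_pow_right₀ (by norm_num) (by omega)
    have b2 : (4 : ℝ) ^ 10 * (5 / 9 : ℝ) ^ d ≤ 1 / 4 := by
      have : (5 / 9 : ℝ) ^ d ≤ (5 / 9 : ℝ) ^ 30 :=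
        pow_le_pow_of_le_one (by norm_num) (by norm_num) hd3
      calc (4 : ℝ) ^ 10 * (5 / 9 : ℝ) ^ d ≤ (4 : ℝ) ^ 10 * (5 / 9 : ℝ) ^ 30 :=
            mul_le_mul_of_nonneg_left this (by norm_num)
        _ ≤ 1 / 4 := by norm_num
    calc (4 : ℝ) ^ n * (5 / 9 : ℝ) ^ (d ^ 2)
        ≤ 4 ^ (10 * (d + 1)) * (5 / 9 : ℝ) ^ (d ^ 2) :=
          mul_le_mul_of_nonneg_right b1 (by positivity)
      _ = 4 ^ 10 * ((4 : ℝ) ^ 10 * (5 / 9 : ℝ) ^ d) ^ d := by
          rw [mul_pow, ← pow_mul, ← pow_mul, show 10 * (d + 1) = 10 + 10 * d by ring, pow_add,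
            show d * d = d ^ 2 by ring]
          ring
      _ ≤ 4 ^ 10 * (1 / 4 : ℝ) ^ d := by
          apply mul_le_mul_of_nonneg_left _ (by norm_num)
          exact pow_le_pow_left₀ (by positivity) b2 d
  have t3 : (1 / 4 : ℝ) ^ d ≤ 3 * Real.exp (-(n / 10 : ℝ)) := by
    have c1 : (1 / 4 : ℝ) ≤ Real.exp (-1) := by
      rw [Real.exp_neg, ← one_div]
      apply one_div_le_one_div_of_le (Real.exp_pos 1)
      have := Real.exp_one_lt_d9
      linarith
    have c2 : Real.exp 1 ≤ 3 := by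
      have := Real.exp_one_lt_d9
      linarith
    calc (1 / 4 : ℝ) ^ d ≤ Real.exp (-1) ^ d := pow_le_pow_left₀ (by norm_num) c1 d
      _ = Real.exp (-(d : ℝ)) := by rw [← Real.exp_nat_mul]; ring_nf
      _ ≤ Real.exp (1 + -(n / 10 : ℝ)) := by
          apply Real.exp_le_exp.2
          linarith
      _ = Real.exp 1 * Real.exp (-(n / 10 : ℝ)) := by rw [Real.exp_add]
      _ ≤ _ := mul_le_mul_of_nonneg_right c2 (Real.exp_pos _).le
  have t4 : n * 9 ^ (2 * d) * (5 / 9 : ℝ) ^ (n - 1) + 4 ^ n * 9 * (5 / 9 : ℝ) ^ (d ^ 2) ≤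
      9 * n * Real.exp (-(n / 10 : ℝ)) := by
    have hn0 : (0 : ℝ) ≤ n := Nat.cast_nonneg n
    calc n * 9 ^ (2 * d) * (5 / 9 : ℝ) ^ (n - 1) + 4 ^ n * 9 * (5 / 9 : ℝ) ^ (d ^ 2)
        = n * ((9 : ℝ) ^ (2 * d) * (5 / 9 : ℝ) ^ (n - 1)) +
          9 * ((4 : ℝ) ^ n * (5 / 9 : ℝ) ^ (d ^ 2)) := by ring
      _ ≤ n * (2 * (1 / 4 : ℝ) ^ d) + 9 * (4 ^ 10 * (1 / 4 : ℝ) ^ d) :=
          add_le_add (mul_le_mul_of_nonneg_left t1 hn0) (mul_le_mul_of_nonneg_left t2 (by norm_num))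
      _ = (2 * n + 9 * 4 ^ 10) * (1 / 4 : ℝ) ^ d := by ring
      _ ≤ (3 * n) * (1 / 4 : ℝ) ^ d := by
          apply mul_le_mul_of_nonneg_right _ (by positivity)
          have h910 : (9 : ℝ) * 4 ^ 10 ≤ 10 ^ 8 := by norm_num
          linarith
      _ ≤ (3 * n) * (3 * Real.exp (-(n / 10 : ℝ))) := mul_le_mul_of_nonneg_left t3 (by positivity)
      _ = _ := by ring
  have hNn : (N : ℝ) + 1 ≤ (n : ℝ) ^ 2 := by
    have : (N : ℝ) = n * (n - 1) / 2 := by rw [hN]; exact Nat.cast_choose_two ℝ n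
    rw [this]
    nlinarith
  have t5 : 9000 * (n : ℝ) ^ 4 ≤ Real.exp (n / 20 : ℝ) := by
    have h1 := Real.pow_div_factorial_le_exp (n / 20 : ℝ) (by positivity) 6
    have h2 : ((Nat.factorial 6 : ℕ) : ℝ) = 720 := by norm_num [Nat.factorial]
    rw [h2] at h1
    refine le_trans ?_ h1
    rw [le_div_iff₀ (by norm_num), div_pow, le_div_iff₀ (by norm_num)]
    have h3 : (10 : ℝ) ^ 16 ≤ (n : ℝ) ^ 2 := by nlinarith
    have h4 : (0 : ℝ) ≤ (n : ℝ) ^ 4 := by positivity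
    nlinarith
  have hE0 : (0 : ℝ) ≤ n * 9 ^ (2 * d) * (5 / 9 : ℝ) ^ (n - 1) +
      4 ^ n * 9 * (5 / 9 : ℝ) ^ (d ^ 2) := by positivity
  calc (n : ℝ) * (n * 9 ^ (2 * d) * (5 / 9 : ℝ) ^ (n - 1) +
        4 ^ n * 9 * (5 / 9 : ℝ) ^ (d ^ 2)) * (1000 * (N + 1))
      ≤ (n : ℝ) * (9 * n * Real.exp (-(n / 10 : ℝ))) * (1000 * (n : ℝ) ^ 2) := by
        apply mul_le_mul (mul_le_mul_of_nonneg_left t4 (Nat.cast_nonneg n)) _ (by positivity)
          (by positivity)
        linarith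
    _ = 9000 * (n : ℝ) ^ 4 * Real.exp (-(n / 10 : ℝ)) := by ring
    _ ≤ Real.exp (n / 20 : ℝ) * Real.exp (-(n / 10 : ℝ)) :=
        mul_le_mul_of_nonneg_right t5 (Real.exp_pos _).le
    _ = Real.exp (-(n / 20 : ℝ)) := by rw [← Real.exp_add]; ring_nf

/-- splitting a sum at a threshold -/
theorem fin_sum_split {β : Type*} (B : Finset β) (c : β → ℕ) (n t : ℕ) (hc : ∀ H ∈ B, c H ≤ n) :
    ∑ H ∈ B, c H ≤ B.card * t + n * (B.filter (fun H => t + 1 ≤ c H)).card := by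
  calc ∑ H ∈ B, c H ≤ ∑ H ∈ B, (t + if t + 1 ≤ c H then n else 0) := by
        apply Finset.sum_le_sum
        intro H hH
        have := hc H hH
        split_ifs with h
        · omega
        · omega
    _ = _ := by
        rw [Finset.sum_add_distrib, Finset.sum_const, smul_eq_mul, ← Finset.sum_filter,
          Finset.sum_const, smul_eq_mul, mul_comm n]

theorem fin_log_key {D : ℝ} (hD : 0 < D) (k : ℕ) :
    Real.log (D⁻¹ * ((3 / 4 : ℝ) ^ k)⁻¹) = -Real.log D + (k : ℝ) * Real.log (4 / 3) := by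
  have h1 : Real.log (4 / 3) = - Real.log (3 / 4) := by
    rw [← Real.log_inv]; norm_num
  rw [h1, Real.log_mul (by positivity) (by positivity), Real.log_inv, Real.log_inv,
    Real.log_pow]
  ring

theorem fin_bound {n L M : ℝ} (hn : 10 ^ 8 ≤ n) (hL : 1 ≤ L) (hM : M ≤ 2 * L) :
    7 + 3 * L + n * L + n + n * (1 + M) ≤ 10 * (n * L) := by
  have hn0 : (0 : ℝ) < n := by linarith
  have h1 : n * (1 + M) ≤ n * (1 + 2 * L) := mul_le_mul_of_nonneg_left (by linarith) hn0.le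
  have h2 : n * 1 ≤ n * L := mul_le_mul_of_nonneg_left hL hn0.le
  have h3 : 10 * L ≤ n * L := mul_le_mul_of_nonneg_right (by linarith) (by linarith)
  have h4 : n * (1 + 2 * L) = n + 2 * (n * L) := by ring
  linarith

theorem fin_y_contra {y : ℝ} (hy : 100 ≤ y) (h : y ^ 6 / 64 ≤ y ^ 5 / 64) : False := by
  have h5 : 0 < y ^ 5 := by positivity
  have h6 : y ^ 6 = y ^ 5 * y := by ring
  have h7 : y ^ 5 * 1 < y ^ 5 * y := mul_lt_mul_of_pos_left (by linarith) h5
  linarith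

/-- the numerical heart: no failure of Hall's condition -/
theorem fin_numeric {n N j : ℕ} {y a C b X T : ℝ} (hn : 10 ^ 8 ≤ n) (hN : N = n.choose 2)
    (hy : y ^ 4 = n) (hy0 : 0 < y) (hlog : 640 * Real.log n ≤ y) (hj : j = ⌊y ^ 3⌋₊)
    (hb : 0 < b) (hX : 0 < X) (ha : a = Real.log (X / b))
    (hC : b * a ≤ C * (1 + Real.log N)) (hCn : C ≤ b * n)
    (hI : b ≤ Real.exp (-(n / 20 : ℝ)) * X)
    (hII : C ≤ b * (2 * j) + n * T)
    (hT : T ≤ n.factorial * 2 ^ n * (3 / 4 : ℝ) ^ (j.choose 2) * (1000 * (N + 1) * X)) :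
    False := by
  have hnr : (10 : ℝ) ^ 8 ≤ n := by exact_mod_cast hn
  have hn0 : (0 : ℝ) < n := by positivity
  have hNr : (N : ℝ) = n * (n - 1) / 2 := by rw [hN]; exact Nat.cast_choose_two ℝ n
  have hN1 : (N : ℝ) + 1 ≤ (n : ℝ) ^ 2 := by rw [hNr]; nlinarith
  have hN0 : (1 : ℝ) ≤ N := by rw [hNr]; nlinarith
  have hy100 : 100 ≤ y := by
    by_contra hlt
    push Not at hlt
    have : y ^ 4 < 100 ^ 4 := pow_lt_pow_left₀ hlt hy0.le (by norm_num)
    rw [hy] at this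
    norm_num at this hnr
    linarith
  set L := Real.log (n : ℝ) with hL
  have hL1 : 1 ≤ L := by
    rw [hL, Real.le_log_iff_exp_le hn0]
    have := Real.exp_one_lt_d9
    linarith
  have hlogN : Real.log N ≤ 2 * L := by
    calc Real.log N ≤ Real.log ((n : ℝ) ^ 2) :=
          Real.log_le_log (by linarith) (by linarith)
      _ = 2 * L := by rw [Real.log_pow]; norm_num [hL]
  have hlogN0 : 0 ≤ Real.log N := Real.log_nonneg hN0
  -- j
  have hj1 : (j : ℝ) ≤ y ^ 3 := by rw [hj]; exact Nat.floor_le (by positivity)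
  have hj2 : y ^ 3 < j + 1 := by rw [hj]; exact Nat.lt_floor_add_one _
  have hy3 : (10 : ℝ) ^ 6 ≤ y ^ 3 := by
    calc (10 : ℝ) ^ 6 = 100 ^ 3 := by norm_num
      _ ≤ y ^ 3 := pow_le_pow_left₀ (by norm_num) hy100 3
  -- (I): a ≥ n / 20
  have haI : (n / 20 : ℝ) ≤ a := by
    rw [ha, Real.le_log_iff_exp_le (by positivity), le_div_iff₀ hb]
    calc Real.exp (n / 20 : ℝ) * b ≤ Real.exp (n / 20 : ℝ) * (Real.exp (-(n / 20 : ℝ)) * X) :=
          mul_le_mul_of_nonneg_left hI (Real.exp_pos _).le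
      _ = X := by rw [← mul_assoc, ← Real.exp_add]; simp
  -- (2 j + 1) b ≤ C
  have hC2 : (2 * (j : ℝ) + 1) * b ≤ C := by
    have h1 : (2 * (j : ℝ) + 1) * (1 + Real.log N) ≤ n / 20 := by
      have h2 : 2 * (j : ℝ) + 1 ≤ 3 * y ^ 3 := by linarith
      have h3 : 1 + Real.log N ≤ 3 * L := by linarith
      have h4 : (2 * (j : ℝ) + 1) * (1 + Real.log N) ≤ 3 * y ^ 3 * (3 * L) :=
        mul_le_mul h2 h3 (by linarith) (by positivity)
      have h5 : 3 * y ^ 3 * (3 * L) ≤ 3 * y ^ 3 * (3 * (y / 640)) := by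
        apply mul_le_mul_of_nonneg_left _ (by positivity)
        linarith
      rw [← hy]
      have h6 : 3 * y ^ 3 * (3 * (y / 640)) ≤ y ^ 4 / 20 := by
        have : 0 ≤ y ^ 4 := by positivity
        nlinarith
      linarith
    have h7 : (2 * (j : ℝ) + 1) * b * (1 + Real.log N) ≤ C * (1 + Real.log N) := by
      calc (2 * (j : ℝ) + 1) * b * (1 + Real.log N)
          = b * ((2 * (j : ℝ) + 1) * (1 + Real.log N)) := by ring
        _ ≤ b * a := mul_le_mul_of_nonneg_left (h1.trans haI) hb.le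
        _ ≤ _ := hC
    exact le_of_mul_le_mul_right h7 (by linarith)
  have hbT : b ≤ n * T := by nlinarith
  -- upper bound for a
  have hau : a ≤ n * (1 + Real.log N) := by
    have h1 : b * a ≤ b * (n * (1 + Real.log N)) := by
      calc b * a ≤ C * (1 + Real.log N) := hC
        _ ≤ b * n * (1 + Real.log N) := mul_le_mul_of_nonneg_right hCn (by linarith)
        _ = _ := by ring
    exact le_of_mul_le_mul_left h1 hb
  -- lower bound for a
  set D : ℝ := n * (n.factorial * 2 ^ n * (1000 * (N + 1))) with hD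
  have hfac : (0 : ℝ) < n.factorial := by exact_mod_cast Nat.factorial_pos n
  have hD0 : 0 < D := by positivity
  have hXb : D⁻¹ * ((3 / 4 : ℝ) ^ (j.choose 2))⁻¹ ≤ X / b := by
    rw [le_div_iff₀ hb]
    have h1 : b ≤ D * (3 / 4 : ℝ) ^ (j.choose 2) * X := by
      calc b ≤ n * T := hbT
        _ ≤ n * (n.factorial * 2 ^ n * (3 / 4 : ℝ) ^ (j.choose 2) * (1000 * (N + 1) * X)) :=
            mul_le_mul_of_nonneg_left hT hn0.le
        _ = _ := by rw [hD]; ring
    calc D⁻¹ * ((3 / 4 : ℝ) ^ (j.choose 2))⁻¹ * b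
        ≤ D⁻¹ * ((3 / 4 : ℝ) ^ (j.choose 2))⁻¹ * (D * (3 / 4 : ℝ) ^ (j.choose 2) * X) :=
          mul_le_mul_of_nonneg_left h1 (by positivity)
      _ = X := by
          have : (3 / 4 : ℝ) ^ (j.choose 2) ≠ 0 := by positivity
          field_simp
  have hal : -Real.log D + (j.choose 2 : ℝ) * Real.log (4 / 3) ≤ a := by
    rw [ha]
    calc -Real.log D + (j.choose 2 : ℝ) * Real.log (4 / 3)
        = Real.log (D⁻¹ * ((3 / 4 : ℝ) ^ (j.choose 2))⁻¹) := (fin_log_key hD0 _).symm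
      _ ≤ _ := Real.log_le_log (by positivity) hXb
  have hlogD : Real.log D ≤ 7 + 3 * L + n * L + n := by
    have h1 : D ≤ n * ((n : ℝ) ^ n * 2 ^ n * (1000 * (n : ℝ) ^ 2)) := by
      rw [hD]
      apply mul_le_mul_of_nonneg_left _ hn0.le
      have h2 : (n.factorial : ℝ) ≤ (n : ℝ) ^ n := by exact_mod_cast Nat.factorial_le_pow n
      apply mul_le_mul (mul_le_mul_of_nonneg_right h2 (by positivity)) _ (by positivity)
        (by positivity)
      linarith
    have hl2 : Real.log 2 ≤ 1 := by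
      have := Real.log_two_lt_d9
      linarith
    have hl1000 : Real.log 1000 ≤ 7 := by
      rw [Real.log_le_iff_le_exp (by norm_num)]
      have h10 : Real.exp 7 = Real.exp 1 ^ 7 := by rw [← Real.exp_nat_mul]; norm_num
      rw [h10]
      have h11 := Real.exp_one_gt_d9
      calc (1000 : ℝ) ≤ (2.7182818283 : ℝ) ^ 7 := by norm_num
        _ ≤ Real.exp 1 ^ 7 := pow_le_pow_left₀ (by norm_num) h11.le _
    calc Real.log D ≤ Real.log (n * ((n : ℝ) ^ n * 2 ^ n * (1000 * (n : ℝ) ^ 2))) :=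
          Real.log_le_log hD0 h1
      _ = L + (n * L + n * Real.log 2 + (Real.log 1000 + 2 * L)) := by
          rw [Real.log_mul (by positivity) (by positivity),
            Real.log_mul (by positivity) (by positivity),
            Real.log_mul (by positivity) (by positivity),
            Real.log_mul (by positivity) (by positivity), Real.log_pow, Real.log_pow,
            Real.log_pow]
          norm_num [hL]
      _ ≤ 7 + 3 * L + n * L + n := by nlinarith
  have hchoose : y ^ 6 / 16 ≤ (j.choose 2 : ℝ) := by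
    rw [Nat.cast_choose_two]
    have h1 : y ^ 3 / 2 ≤ (j : ℝ) := by linarith
    have h2 : y ^ 3 / 4 ≤ (j : ℝ) - 1 := by linarith
    have h3 : y ^ 3 / 2 * (y ^ 3 / 4) ≤ (j : ℝ) * (j - 1) :=
      mul_le_mul h1 h2 (by positivity) (by positivity)
    have h4 : y ^ 3 / 2 * (y ^ 3 / 4) = y ^ 6 / 8 := by ring
    linarith
  have hlog43 : (1 / 4 : ℝ) ≤ Real.log (4 / 3) := by
    have h1 : Real.log (4 / 3) = - Real.log (3 / 4) := by
      rw [← Real.log_inv]; norm_num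
    have h2 := Real.log_le_sub_one_of_pos (show (0 : ℝ) < 3 / 4 by norm_num)
    linarith
  have hbig : y ^ 6 / 64 ≤ (j.choose 2 : ℝ) * Real.log (4 / 3) := by
    calc y ^ 6 / 64 = y ^ 6 / 16 * (1 / 4) := by ring
      _ ≤ _ := mul_le_mul hchoose hlog43 (by norm_num) (by positivity)
  have hfin : y ^ 6 / 64 ≤ 10 * (n * L) := by
    have h1 := fin_bound hnr hL1 hlogN
    linarith
  have hlast : 10 * ((n : ℝ) * L) ≤ y ^ 5 / 64 := by
    rw [← hy]
    have h1 : L ≤ y / 640 := by linarith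
    have h2 : y ^ 4 * L ≤ y ^ 4 * (y / 640) := mul_le_mul_of_nonneg_left h1 (by positivity)
    have h3 : y ^ 4 * (y / 640) = y ^ 5 / 640 := by ring
    linarith
  exact fin_y_contra hy100 (hfin.trans hlast)

theorem hall_large : ∃ n₀ : ℕ, ∀ n ≥ n₀, ∀ m, n.choose 2 + 2 ≤ 2 * m →
    ∀ B : Finset (Finset (Slot n)), (∀ H ∈ B, Ham H ∧ H.card = m) →
      B.card ≤ (dsh Ham B).card := by
  obtain ⟨n₀, hn₀, hlog⟩ := fin_exists_n0
  refine ⟨n₀, fun n hn m hm B hB => ?_⟩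
  by_contra hlt
  push Not at hlt
  have hn8 : 10 ^ 8 ≤ n := le_trans hn₀ hn
  have hn3 : 3 ≤ n := le_trans (by norm_num) hn8
  have hn9 : 9 ≤ n := le_trans (by norm_num) hn8
  set N := n.choose 2 with hN
  have hcard : Fintype.card (Slot n) = N := card_slot n
  have hBpos : 0 < B.card := by omega
  set C := ∑ H ∈ B, (crit Ham H).card with hC
  have hcn : ∀ H ∈ B, (crit Ham H).card ≤ n := fun H hH => crit_card_le H (hB H hH).1
  have hCn : C ≤ B.card * n := by
    have := Finset.sum_le_card_nsmul B (fun H => (crit Ham H).card) n hcn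
    rwa [smul_eq_mul] at this
  have hd1 := defect_gt (Ham (n := n)) m (by rw [hcard]; exact hm) B hB hlt
  rw [hcard] at hd1
  have hC1 : B.card < C := by
    have h1 : B.card * (N + 2) ≤ B.card * (2 * m) := Nat.mul_le_mul_left _ hm
    have h2 : B.card * (N + 2) = B.card * (N + 1) + B.card := by ring
    omega
  have h2m : 2 * m ≤ N + n := by
    have h1 : B.card * (2 * m) < B.card * (n + (N + 1)) := by
      calc B.card * (2 * m) < C + B.card * (N + 1) := hd1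
        _ ≤ B.card * n + B.card * (N + 1) := by omega
        _ = _ := by ring
    have h2 := Nat.lt_of_mul_lt_mul_left h1
    omega
  have hch := choose_lower hn9 (by omega : n.choose 2 ≤ 2 * m) h2m
  rw [← hN] at hch
  have hdl := defect_log (Ham (n := n)) m (by rw [hcard]; exact hm) B hB hlt
  rw [hcard] at hdl
  have hX : (0 : ℝ) < (N.choose m : ℝ) := by
    by_contra hX
    push Not at hX
    have : (N.choose m : ℝ) = 0 := le_antisymm hX (Nat.cast_nonneg _)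
    rw [this, mul_zero] at hch
    have : (0 : ℝ) < 2 ^ N := by positivity
    linarith
  set X : ℝ := (N.choose m : ℝ) with hXdef
  set b : ℝ := (B.card : ℝ) with hb
  have hb0 : 0 < b := by rw [hb]; exact_mod_cast hBpos
  have hnr : (10 : ℝ) ^ 8 ≤ n := by exact_mod_cast hn8
  -- y
  set y : ℝ := (n : ℝ) ^ (1 / 4 : ℝ) with hy
  have hy4 : y ^ 4 = n := by
    rw [hy, ← Real.rpow_natCast, ← Real.rpow_mul (Nat.cast_nonneg n)]
    norm_num
  have hy0 : 0 < y := Real.rpow_pos_of_pos (by positivity) _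
  -- (I)
  have hI : b ≤ Real.exp (-(n / 20 : ℝ)) * X := by
    have h1 := fin_sum_split B (fun H => (crit Ham H).card) n 0 hcn
    have h2 : (B.filter (fun H => 0 + 1 ≤ (crit Ham H).card)).card ≤
        ((univ.filter (fun S : Finset (Slot n) => Ham S ∧ 1 ≤ (crit Ham S).card)).card) := by
      apply Finset.card_le_card
      intro H hH
      rw [Finset.mem_filter] at hH ⊢
      exact ⟨Finset.mem_univ _, (hB H hH.1).1, by simpa using hH.2⟩
    have h3 := count_crit (n := n) (d := n / 10) hn3 (by omega)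
    rw [← hN] at h3
    have h4 : (B.card : ℝ) ≤
        n * ((univ.filter (fun S : Finset (Slot n) => Ham S ∧ 1 ≤ (crit Ham S).card)).card : ℝ) := by
      have h5 : B.card ≤
          n * (univ.filter (fun S : Finset (Slot n) => Ham S ∧ 1 ≤ (crit Ham S).card)).card := by
        calc B.card ≤ C := hC1.le
          _ ≤ B.card * 0 + n * (B.filter (fun H => 0 + 1 ≤ (crit Ham H).card)).card := h1
          _ = n * (B.filter (fun H => 0 + 1 ≤ (crit Ham H).card)).card := by ring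
          _ ≤ _ := Nat.mul_le_mul_left _ h2
      exact_mod_cast h5
    have h6 := fin_E_bound hn8 hN (rfl : n / 10 = n / 10)
    set E : ℝ := n * 9 ^ (2 * (n / 10)) * (5 / 9 : ℝ) ^ (n - 1) +
      4 ^ n * 9 * (5 / 9 : ℝ) ^ ((n / 10) ^ 2) with hE
    have hE0 : 0 ≤ E := by positivity
    calc b ≤ n * (E * 2 ^ N) := by
          refine h4.trans (mul_le_mul_of_nonneg_left ?_ (Nat.cast_nonneg n))
          exact h3
      _ ≤ n * (E * (1000 * (N + 1) * X)) := by
          apply mul_le_mul_of_nonneg_left _ (Nat.cast_nonneg n)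
          exact mul_le_mul_of_nonneg_left hch hE0
      _ = n * E * (1000 * (N + 1)) * X := by ring
      _ ≤ _ := mul_le_mul_of_nonneg_right h6 hX.le
  -- (II)
  have hII : (C : ℝ) ≤ b * (2 * (⌊y ^ 3⌋₊ : ℕ)) + n *
      ((univ.filter (fun S : Finset (Slot n) =>
        Ham S ∧ 2 * ⌊y ^ 3⌋₊ + 1 ≤ (crit Ham S).card)).card : ℝ) := by
    have h1 := fin_sum_split B (fun H => (crit Ham H).card) n (2 * ⌊y ^ 3⌋₊) hcn
    have h2 : (B.filter (fun H => 2 * ⌊y ^ 3⌋₊ + 1 ≤ (crit Ham H).card)).card ≤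
        ((univ.filter (fun S : Finset (Slot n) =>
          Ham S ∧ 2 * ⌊y ^ 3⌋₊ + 1 ≤ (crit Ham S).card)).card) := by
      apply Finset.card_le_card
      intro H hH
      rw [Finset.mem_filter] at hH ⊢
      exact ⟨Finset.mem_univ _, (hB H hH.1).1, hH.2⟩
    have h3 : C ≤ B.card * (2 * ⌊y ^ 3⌋₊) + n * ((univ.filter (fun S : Finset (Slot n) =>
          Ham S ∧ 2 * ⌊y ^ 3⌋₊ + 1 ≤ (crit Ham S).card)).card) :=
      h1.trans (Nat.add_le_add_left (Nat.mul_le_mul_left _ h2) _)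
    rw [hb]
    exact_mod_cast h3
  have hT := count_many (n := n) hn3 ⌊y ^ 3⌋₊
  rw [← hN] at hT
  refine fin_numeric (n := n) (N := N) (j := ⌊y ^ 3⌋₊) (y := y) (a := Real.log (X / b)) (C := (C : ℝ))
    (b := b) (X := X) (T := ((univ.filter (fun S : Finset (Slot n) =>
        Ham S ∧ 2 * ⌊y ^ 3⌋₊ + 1 ≤ (crit Ham S).card)).card : ℝ)) hn8 hN hy4 hy0 (hlog n hn) rfl
    hb0 hX rfl ?_ ?_ hI hII ?_
  · rw [hC]
    push_cast
    exact hdl
  · rw [hb]
    exact_mod_cast hCn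
  · refine hT.trans ?_
    apply mul_le_mul_of_nonneg_left hch
    positivity

theorem main : ∃ n₀ : ℕ, ∀ n ≥ n₀, ∀ A : Finset (SimpleGraph (Fin n)),
    (∀ G ∈ A, G.IsHamiltonian) → IsAntichain (· ≤ ·) (A : Set (SimpleGraph (Fin n))) →
      A.card ≤ (univ.filter (fun G : SimpleGraph (Fin n) =>
        G.IsHamiltonian ∧ G.edgeFinset.card = (n.choose 2 + 1) / 2)).card := by
  obtain ⟨n₀, h⟩ := hall_large
  refine ⟨max n₀ 3, fun n hn A hA hanti => ?_⟩
  have hn3 : 3 ≤ n := le_trans (le_max_right _ _) hn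
  have hn0 : n₀ ≤ n := le_trans (le_max_left _ _) hn
  refine transfer hn3 _ (fun A' hA' hanti' => ?_) A hA hanti
  refine antichain_le (Ham (n := n)) (fun S T hST hS => ham_mono S T hST hS) _ ?_ ?_ A' hA' hanti'
  · rw [card_slot]
    omega
  · intro m hm B hB
    exact h n hn0 m (by omega) B hB

end Pool.Agent.HamSp
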