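import Pool.Agent.Lib.MP_e65231_co.Defs

/-!
# Entropy isoperimetric inequality in the slice (MP_e65231_co, module ISO, helper37)
-/

set_option linter.unusedSectionVars false

noncomputable section

open scoped Classical FinsetFamily
open Finset

namespace Pool.Agent.HamSp

section Abs

variable {α : Type*}

/-- the two point inequality: mutual information of an exchangeable pair of distinct points -/
lemma pair_ineq [DecidableEq α] (U : Finset α) (w : α → α → ℝ) (hw : ∀ u v, 0 ≤ w u v)
    (hs : ∀ u v, w u v = w v u) (hU : 2 ≤ U.card) (r : α → ℝ)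
    (hr : ∀ u ∈ U, r u = ∑ v ∈ U.erase u, w u v) (W : ℝ) (hW : W = ∑ u ∈ U, r u) :
    2 * (∑ u ∈ U, r u * Real.log (r u)) - W * Real.log W +
      W * Real.log ((U.card : ℝ) / (U.card - 1)) ≤
      ∑ u ∈ U, ∑ v ∈ U.erase u, w u v * Real.log (w u v) := by
  have hr0 : ∀ u ∈ U, 0 ≤ r u := fun u hu => by
    rw [hr u hu]; exact Finset.sum_nonneg fun v _ => hw u v
  have hW0 : 0 ≤ W := by rw [hW]; exact Finset.sum_nonneg hr0
  have hM : (2 : ℝ) ≤ U.card := by exact_mod_cast hU
  set M : ℝ := (U.card : ℝ) with hMdef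
  set c : ℝ := M / (M - 1) with hc
  have hM1 : 0 < M - 1 := by linarith
  have hc0 : 0 < c := div_pos (by linarith) hM1
  -- interchange of the two sums
  have hswap : ∀ f : α → α → ℝ, ∑ u ∈ U, ∑ v ∈ U.erase u, f u v =
      ∑ u ∈ U, ∑ v ∈ U.erase u, f v u := by
    intro f
    have e1 : ∀ g : α → α → ℝ, ∑ u ∈ U, ∑ v ∈ U.erase u, g u v =
        ∑ u ∈ U, ∑ v ∈ U, if v ≠ u then g u v else 0 := by
      intro g
      refine Finset.sum_congr rfl fun u _ => ?_
      rw [← Finset.sum_filter]
      refine Finset.sum_congr ?_ fun _ _ => rfl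
      ext v; simp [and_comm]
    rw [e1, e1, Finset.sum_comm]
    refine Finset.sum_congr rfl fun u _ => Finset.sum_congr rfl fun v _ => ?_
    by_cases h : u = v
    · subst h; simp
    · simp [h, Ne.symm h]
  rcases hW0.eq_or_lt with h0 | hWpos
  · -- all weights vanish
    have hrz : ∀ u ∈ U, r u = 0 := by
      have := (Finset.sum_eq_zero_iff_of_nonneg hr0).1 (by rw [← hW]; exact h0.symm)
      exact this
    have hwz : ∀ u ∈ U, ∀ v ∈ U.erase u, w u v = 0 := by
      intro u hu v hv
      have := (Finset.sum_eq_zero_iff_of_nonneg (fun v _ => hw u v)).1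
        (by rw [← hr u hu]; exact hrz u hu)
      exact this v hv
    have e1 : ∑ u ∈ U, r u * Real.log (r u) = 0 :=
      Finset.sum_eq_zero fun u hu => by rw [hrz u hu]; simp
    have e2 : ∑ u ∈ U, ∑ v ∈ U.erase u, w u v * Real.log (w u v) = 0 :=
      Finset.sum_eq_zero fun u hu => Finset.sum_eq_zero fun v hv => by
        rw [hwz u hu v hv]; simp
    rw [e1, e2, ← h0]
    simp
  · -- pointwise inequality
    have hpt : ∀ u ∈ U, ∀ v ∈ U.erase u,
        w u v * (Real.log (r u) + Real.log (r v) - Real.log W + Real.log c) -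
          w u v * Real.log (w u v) ≤ r u * r v * (c / W) - w u v := by
      intro u hu v hv
      have hv' : v ∈ U := Finset.mem_of_mem_erase hv
      rcases (hw u v).eq_or_lt with h | h
      · rw [← h]
        have := mul_nonneg (mul_nonneg (hr0 u hu) (hr0 v hv')) (div_pos hc0 hWpos).le
        simpa using this
      · have hru : 0 < r u := by
          rw [hr u hu]
          exact lt_of_lt_of_le h (Finset.single_le_sum (f := fun v => w u v)
            (fun v _ => hw u v) hv)
        have huv : u ∈ U.erase v := by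
          rw [Finset.mem_erase] at hv ⊢
          exact ⟨fun e => hv.1 e.symm, hu⟩
        have hrv : 0 < r v := by
          rw [hr v hv']
          refine lt_of_lt_of_le (by rw [hs] at h; exact h) (Finset.single_le_sum
            (f := fun x => w v x) (fun x _ => hw v x) huv)
        have hx : 0 < r u * r v * (c / W) / w u v := by positivity
        have hl := Real.log_le_sub_one_of_pos hx
        have hlog : Real.log (r u * r v * (c / W) / w u v) =
            Real.log (r u) + Real.log (r v) - Real.log W + Real.log c - Real.log (w u v) := by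
          rw [Real.log_div (by positivity) h.ne', Real.log_mul (by positivity) (by positivity),
            Real.log_mul hru.ne' hrv.ne', Real.log_div hc0.ne' hWpos.ne']
          ring
        rw [hlog] at hl
        have h2 := mul_le_mul_of_nonneg_left hl h.le
        have h3 : w u v * (r u * r v * (c / W) / w u v - 1) = r u * r v * (c / W) - w u v := by
          field_simp
        rw [h3] at h2
        linarith
    have hsum := Finset.sum_le_sum fun u hu => Finset.sum_le_sum (hpt u hu)
    simp only [Finset.sum_sub_distrib] at hsum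
    -- left hand side
    have hL : ∑ u ∈ U, ∑ v ∈ U.erase u,
        w u v * (Real.log (r u) + Real.log (r v) - Real.log W + Real.log c) =
        2 * (∑ u ∈ U, r u * Real.log (r u)) - W * Real.log W + W * Real.log c := by
      have a1 : ∑ u ∈ U, ∑ v ∈ U.erase u, w u v * Real.log (r u) =
          ∑ u ∈ U, r u * Real.log (r u) :=
        Finset.sum_congr rfl fun u hu => by rw [← Finset.sum_mul, ← hr u hu]
      have a2 : ∑ u ∈ U, ∑ v ∈ U.erase u, w u v * Real.log (r v) =
          ∑ u ∈ U, r u * Real.log (r u) := by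
        rw [hswap, ← a1]
        exact Finset.sum_congr rfl fun u _ => Finset.sum_congr rfl fun v _ => by rw [hs]
      have a3 : ∀ x : ℝ, ∑ u ∈ U, ∑ v ∈ U.erase u, w u v * x = W * x := by
        intro x
        rw [hW, Finset.sum_mul]
        exact Finset.sum_congr rfl fun u hu => by rw [← Finset.sum_mul, ← hr u hu]
      have a4 : ∀ u v, w u v * (Real.log (r u) + Real.log (r v) - Real.log W + Real.log c) =
          w u v * Real.log (r u) + w u v * Real.log (r v) - w u v * Real.log W +
            w u v * Real.log c := fun u v => by ring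
      simp only [a4, Finset.sum_add_distrib, Finset.sum_sub_distrib, a1, a2, a3]
      ring
    have hR1 : ∑ u ∈ U, ∑ v ∈ U.erase u, w u v = W := by
      rw [hW]; exact Finset.sum_congr rfl fun u hu => (hr u hu).symm
    have hR2 : ∑ u ∈ U, ∑ v ∈ U.erase u, r u * r v * (c / W) ≤ W := by
      have b1 : ∑ u ∈ U, ∑ v ∈ U.erase u, r u * r v * (c / W) =
          (W ^ 2 - ∑ u ∈ U, r u ^ 2) * (c / W) := by
        simp only [← Finset.sum_mul]
        congr 1
        have : ∀ u ∈ U, ∑ v ∈ U.erase u, r u * r v = r u * W - r u ^ 2 := by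
          intro u hu
          rw [← Finset.mul_sum, hW, ← Finset.add_sum_erase U r hu]
          ring
        rw [Finset.sum_congr rfl this, Finset.sum_sub_distrib, ← Finset.sum_mul, ← hW]
        ring
      have b2 : W ^ 2 ≤ M * ∑ u ∈ U, r u ^ 2 := by
        rw [hW]
        exact sq_sum_le_card_mul_sum_sq
      rw [b1]
      have b3 : (M - 1) * (W ^ 2 - ∑ u ∈ U, r u ^ 2) * M ≤ (M - 1) * (W ^ 2 * (M - 1)) := by
        nlinarith
      have b4 : (W ^ 2 - ∑ u ∈ U, r u ^ 2) * M ≤ W ^ 2 * (M - 1) := by nlinarith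
      have b5 : (W ^ 2 - ∑ u ∈ U, r u ^ 2) * (c / W) =
          ((W ^ 2 - ∑ u ∈ U, r u ^ 2) * M) / ((M - 1) * W) := by
        rw [hc]; field_simp
      rw [b5, div_le_iff₀ (mul_pos hM1 hWpos)]
      calc _ ≤ W ^ 2 * (M - 1) := b4
        _ = W * ((M - 1) * W) := by ring
    rw [hL] at hsum
    linarith [hsum, hR1, hR2]

variable [Fintype α] [DecidableEq α]

lemma sum_insert_powersetCard (F : Finset α → ℝ) (j : ℕ) :
    ∑ T ∈ powersetCard j (univ : Finset α), ∑ u ∈ univ \ T, F (insert u T) =
      (j + 1) * ∑ T ∈ powersetCard (j + 1) (univ : Finset α), F T := by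
  have h1 : (j + 1 : ℝ) * ∑ T ∈ powersetCard (j + 1) (univ : Finset α), F T =
      ∑ T ∈ powersetCard (j + 1) (univ : Finset α), ∑ _u ∈ T, F T := by
    rw [Finset.mul_sum]
    refine Finset.sum_congr rfl fun T hT => ?_
    rw [Finset.sum_const, (Finset.mem_powersetCard.1 hT).2, nsmul_eq_mul]
    push_cast; ring
  rw [h1, Finset.sum_sigma', Finset.sum_sigma']
  refine Finset.sum_nbij' (fun p => ⟨insert p.2 p.1, p.2⟩) (fun p => ⟨p.1.erase p.2, p.2⟩)
    ?_ ?_ ?_ ?_ ?_
  · rintro ⟨T, u⟩ h
    simp only [Finset.mem_sigma, Finset.mem_powersetCard, Finset.mem_sdiff, Finset.mem_univ,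
      true_and, Finset.subset_univ] at h ⊢
    exact ⟨by rw [Finset.card_insert_of_notMem h.2, h.1], Finset.mem_insert_self _ _⟩
  · rintro ⟨T, u⟩ h
    simp only [Finset.mem_sigma, Finset.mem_powersetCard, Finset.mem_sdiff, Finset.mem_univ,
      true_and, Finset.subset_univ] at h ⊢
    exact ⟨by rw [Finset.card_erase_of_mem h.2, h.1]; rfl, Finset.notMem_erase _ _⟩
  · rintro ⟨T, u⟩ h
    simp only [Finset.mem_sigma, Finset.mem_powersetCard, Finset.mem_sdiff, Finset.mem_univ,
      true_and, Finset.subset_univ] at h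
    simp [Finset.erase_insert h.2]
  · rintro ⟨T, u⟩ h
    simp only [Finset.mem_sigma, Finset.mem_powersetCard, Finset.mem_univ,
      true_and, Finset.subset_univ] at h
    simp [Finset.insert_erase h.2]
  · rintro ⟨T, u⟩ _
    rfl

/-- the members of `B` above `insert u T`, summed over `u` -/
lemma sum_bdeg_insert (B : Finset (Finset α)) (m : ℕ) (hB : ∀ H ∈ B, H.card = m)
    (T : Finset α) :
    ∑ u ∈ univ \ T, (bdeg B (insert u T) : ℝ) = ((m : ℝ) - T.card) * bdeg B T := by
  have h1 : ∀ u, (bdeg B (insert u T) : ℝ) =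
      ∑ H ∈ B.filter (fun H => T ⊆ H), if u ∈ H then (1 : ℝ) else 0 := by
    intro u
    rw [Finset.sum_boole, Finset.filter_filter, bdeg]
    congr 2
    refine Finset.filter_congr fun H _ => ?_
    rw [Finset.insert_subset_iff]
    tauto
  simp only [h1]
  rw [Finset.sum_comm]
  have h2 : ∀ H ∈ B.filter (fun H => T ⊆ H),
      ∑ u ∈ univ \ T, (if u ∈ H then (1 : ℝ) else 0) = (m : ℝ) - T.card := by
    intro H hH
    rw [Finset.mem_filter] at hH
    rw [Finset.sum_boole]
    have : (univ \ T).filter (fun u => u ∈ H) = H \ T := by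
      ext u; simp [and_comm]
    rw [this, Finset.card_sdiff_of_subset hH.2, hB H hH.1,
      Nat.cast_sub (by rw [← hB H hH.1]; exact Finset.card_le_card hH.2)]
  rw [Finset.sum_congr rfl h2, Finset.sum_const, bdeg, nsmul_eq_mul]
  ring

/-- `∑ b(T) log b(T)` over the sets of size `j` -/
def Phi (B : Finset (Finset α)) (j : ℕ) : ℝ :=
  ∑ T ∈ powersetCard j (univ : Finset α), (bdeg B T : ℝ) * Real.log (bdeg B T)

/-- total number of pairs (T, H), `T` of size `j` -/
def Tot (B : Finset (Finset α)) (j : ℕ) : ℝ :=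
  ∑ T ∈ powersetCard j (univ : Finset α), (bdeg B T : ℝ)

lemma Tot_succ (B : Finset (Finset α)) (m : ℕ) (hB : ∀ H ∈ B, H.card = m) (j : ℕ) :
    ((j : ℝ) + 1) * Tot B (j + 1) = ((m : ℝ) - j) * Tot B j := by
  rw [Tot, ← sum_insert_powersetCard (fun T => (bdeg B T : ℝ)) j, Tot, Finset.mul_sum]
  refine Finset.sum_congr rfl fun T hT => ?_
  rw [sum_bdeg_insert B m hB, (Finset.mem_powersetCard.1 hT).2]

lemma bdeg_empty (B : Finset (Finset α)) : bdeg B ∅ = B.card := by
  simp [bdeg]

lemma Tot_zero (B : Finset (Finset α)) : Tot B 0 = B.card := by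
  simp [Tot, bdeg_empty]

lemma Phi_zero (B : Finset (Finset α)) : Phi B 0 = B.card * Real.log B.card := by
  simp [Phi, bdeg_empty]

lemma Tot_eq (B : Finset (Finset α)) (m : ℕ) (hB : ∀ H ∈ B, H.card = m) (j : ℕ) (hj : j ≤ m) :
    Tot B j = (m.choose j : ℝ) * B.card := by
  induction j with
  | zero => simp [Tot_zero]
  | succ j ih =>
    have h1 := Tot_succ B m hB j
    rw [ih (by omega)] at h1
    have h2 : ((m.choose (j + 1) : ℕ) : ℝ) * ((j : ℝ) + 1) = (m.choose j : ℝ) * ((m : ℝ) - j) := by
      have := Nat.choose_succ_right_eq m j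
      have h3 : ((m.choose (j + 1) * (j + 1) : ℕ) : ℝ) = ((m.choose j * (m - j) : ℕ) : ℝ) := by
        rw [this]
      push_cast [Nat.cast_sub (show j ≤ m by omega)] at h3
      exact h3
    have h4 : ((j : ℝ) + 1) ≠ 0 := by positivity
    apply mul_left_cancel₀ h4
    rw [h1]
    linear_combination (-(B.card : ℝ)) * h2

/-- the members of size `m` have degree one or zero -/
lemma Phi_top (B : Finset (Finset α)) (m : ℕ) (hB : ∀ H ∈ B, H.card = m) : Phi B m = 0 := by
  refine Finset.sum_eq_zero fun T hT => ?_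
  have hle : bdeg B T ≤ 1 := by
    rw [bdeg, Finset.card_le_one]
    intro H hH H' hH'
    rw [Finset.mem_filter] at hH hH'
    have hTm := (Finset.mem_powersetCard.1 hT).2
    rw [← Finset.eq_of_subset_of_card_le hH.2 (by rw [hB H hH.1, hTm]),
      ← Finset.eq_of_subset_of_card_le hH'.2 (by rw [hB H' hH'.1, hTm])]
  interval_cases h : bdeg B T <;> simp

lemma insert_insert_comm' (u v : α) (T : Finset α) :
    insert v (insert u T) = insert u (insert v T) := Finset.insert_comm v u T

/-- the basic convexity inequality between three consecutive levels -/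
lemma Phi_convex (B : Finset (Finset α)) (m : ℕ) (hB : ∀ H ∈ B, H.card = m) (j : ℕ)
    (hj : j + 2 ≤ m) (hm : m ≤ Fintype.card α) :
    2 * (((j : ℝ) + 1) * ((m : ℝ) - (j + 1))) *
        (Phi B (j + 1) + Real.log ((m : ℝ) - (j + 1)) * Tot B (j + 1)) -
      ((m : ℝ) - (j + 1)) * ((m : ℝ) - j) *
        (Phi B j + (Real.log ((m : ℝ) - (j + 1)) + Real.log ((m : ℝ) - j)) * Tot B j) +
      ((m : ℝ) - (j + 1)) * ((m : ℝ) - j) * Tot B j *
        Real.log (((Fintype.card α : ℝ) - j) / ((Fintype.card α : ℝ) - (j + 1))) ≤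
      ((j : ℝ) + 1) * (j + 2) * Phi B (j + 2) := by
  have hmj : (0 : ℝ) < (m : ℝ) - (j + 1) := by
    have : ((j + 2 : ℕ) : ℝ) ≤ m := by exact_mod_cast hj
    push_cast at this; linarith
  have hmj' : (0 : ℝ) < (m : ℝ) - j := by linarith
  -- local inequality
  have hloc : ∀ T ∈ powersetCard j (univ : Finset α),
      2 * (∑ u ∈ univ \ T, (((m : ℝ) - (j + 1)) * bdeg B (insert u T)) *
          Real.log (((m : ℝ) - (j + 1)) * bdeg B (insert u T))) -
        (((m : ℝ) - (j + 1)) * ((m : ℝ) - j) * bdeg B T) *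
          Real.log (((m : ℝ) - (j + 1)) * ((m : ℝ) - j) * bdeg B T) +
        (((m : ℝ) - (j + 1)) * ((m : ℝ) - j) * bdeg B T) *
          Real.log (((Fintype.card α : ℝ) - j) / ((Fintype.card α : ℝ) - (j + 1))) ≤
      ∑ u ∈ univ \ T, ∑ v ∈ univ \ (insert u T),
        (bdeg B (insert v (insert u T)) : ℝ) * Real.log (bdeg B (insert v (insert u T))) := by
    intro T hT
    have hTc : T.card = j := (Finset.mem_powersetCard.1 hT).2
    have hUc : (univ \ T).card = Fintype.card α - j := by
      rw [Finset.card_sdiff_of_subset (Finset.subset_univ _), Finset.card_univ, hTc]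
    have her : ∀ u, (univ \ T).erase u = univ \ (insert u T) := by
      intro u; ext v; simp [not_or, and_comm]
    have key := pair_ineq (univ \ T) (fun u v => (bdeg B (insert v (insert u T)) : ℝ))
      (fun u v => Nat.cast_nonneg _) (fun u v => by rw [Finset.insert_comm])
      (by rw [hUc]; omega) (fun u => ((m : ℝ) - (j + 1)) * bdeg B (insert u T))
      (by
        intro u hu
        rw [her, sum_bdeg_insert B m hB, Finset.card_insert_of_notMem (by simpa using hu), hTc]
        push_cast; ring)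
      (((m : ℝ) - (j + 1)) * ((m : ℝ) - j) * bdeg B T)
      (by
        rw [← Finset.mul_sum, sum_bdeg_insert B m hB, hTc]
        ring)
    simp only [her] at key
    have hcast : (((univ \ T).card : ℕ) : ℝ) = (Fintype.card α : ℝ) - j := by
      rw [hUc, Nat.cast_sub (by omega)]
    rw [hcast, show (Fintype.card α : ℝ) - j - 1 = (Fintype.card α : ℝ) - (j + 1) by ring] at key
    exact key
  have hsum := Finset.sum_le_sum hloc
  rw [Finset.sum_add_distrib, Finset.sum_sub_distrib] at hsum
  -- right hand side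
  have hR : ∑ T ∈ powersetCard j (univ : Finset α), ∑ u ∈ univ \ T, ∑ v ∈ univ \ (insert u T),
      (bdeg B (insert v (insert u T)) : ℝ) * Real.log (bdeg B (insert v (insert u T))) =
      ((j : ℝ) + 1) * (j + 2) * Phi B (j + 2) := by
    rw [sum_insert_powersetCard (fun T' => ∑ v ∈ univ \ T',
      (bdeg B (insert v T') : ℝ) * Real.log (bdeg B (insert v T'))) j,
      sum_insert_powersetCard (fun T' => (bdeg B T' : ℝ) * Real.log (bdeg B T')) (j + 1), Phi]
    push_cast; ring
  -- first term
  have hlm : ∀ x : ℝ, 0 < x → ∀ b : ℕ, (x * b) * Real.log (x * b) =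
      x * ((b : ℝ) * Real.log b + Real.log x * b) := by
    intro x hx b
    rcases Nat.eq_zero_or_pos b with h | h
    · simp [h]
    · rw [Real.log_mul hx.ne' (by positivity)]; ring
  have hA : ∑ T ∈ powersetCard j (univ : Finset α),
      2 * (∑ u ∈ univ \ T, (((m : ℝ) - (j + 1)) * bdeg B (insert u T)) *
          Real.log (((m : ℝ) - (j + 1)) * bdeg B (insert u T))) =
      2 * (((j : ℝ) + 1) * ((m : ℝ) - (j + 1))) *
        (Phi B (j + 1) + Real.log ((m : ℝ) - (j + 1)) * Tot B (j + 1)) := by
    rw [← Finset.mul_sum, sum_insert_powersetCard (fun T' => (((m : ℝ) - (j + 1)) * bdeg B T') *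
          Real.log (((m : ℝ) - (j + 1)) * bdeg B T')) j]
    simp only [hlm _ hmj, ← Finset.mul_sum, Finset.sum_add_distrib, Phi, Tot]
    ring
  have hBt : ∑ T ∈ powersetCard j (univ : Finset α),
      (((m : ℝ) - (j + 1)) * ((m : ℝ) - j) * bdeg B T) *
          Real.log (((m : ℝ) - (j + 1)) * ((m : ℝ) - j) * bdeg B T) =
      ((m : ℝ) - (j + 1)) * ((m : ℝ) - j) *
        (Phi B j + (Real.log ((m : ℝ) - (j + 1)) + Real.log ((m : ℝ) - j)) * Tot B j) := by
    simp only [hlm _ (mul_pos hmj hmj'), ← Finset.mul_sum, Finset.sum_add_distrib, Phi, Tot,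
      Real.log_mul hmj.ne' hmj'.ne']
  have hC : ∑ T ∈ powersetCard j (univ : Finset α),
      (((m : ℝ) - (j + 1)) * ((m : ℝ) - j) * bdeg B T) *
          Real.log (((Fintype.card α : ℝ) - j) / ((Fintype.card α : ℝ) - (j + 1))) =
      ((m : ℝ) - (j + 1)) * ((m : ℝ) - j) * Tot B j *
        Real.log (((Fintype.card α : ℝ) - j) / ((Fintype.card α : ℝ) - (j + 1))) := by
    rw [← Finset.sum_mul, ← Finset.mul_sum, Tot]
  rw [hA, hBt, hC, hR] at hsum
  exact hsum

/-- normalised `Phi` -/
def phi (B : Finset (Finset α)) (j : ℕ) : ℝ := Phi B j / Tot B j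

/-- `hh B m j` is `h_{j+1}` of the paper proof -/
def hh (B : Finset (Finset α)) (m j : ℕ) : ℝ :=
  Real.log ((Fintype.card α : ℝ) - j) - Real.log ((m : ℝ) - j) + phi B (j + 1) - phi B j

lemma hh_mono (B : Finset (Finset α)) (m : ℕ) (hB : ∀ H ∈ B, H.card = m) (hne : B.Nonempty)
    (j : ℕ) (hj : j + 2 ≤ m) (hm : m ≤ Fintype.card α) : hh B m j ≤ hh B m (j + 1) := by
  have hBc : (0 : ℝ) < B.card := by exact_mod_cast hne.card_pos
  have hT : ∀ i, i ≤ m → 0 < Tot B i := by
    intro i hi
    rw [Tot_eq B m hB i hi]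
    exact mul_pos (by exact_mod_cast Nat.choose_pos hi) hBc
  have hmj : (0 : ℝ) < (m : ℝ) - (j + 1) := by
    have : ((j + 2 : ℕ) : ℝ) ≤ m := by exact_mod_cast hj
    push_cast at this; linarith
  have hmj' : (0 : ℝ) < (m : ℝ) - j := by linarith
  have hmN : (m : ℝ) ≤ Fintype.card α := by exact_mod_cast hm
  have hN : (0 : ℝ) < (Fintype.card α : ℝ) - (j + 1) := by linarith
  have hN' : (0 : ℝ) < (Fintype.card α : ℝ) - j := by linarith
  have key := Phi_convex B m hB j hj hm
  have t1 := Tot_succ B m hB j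
  have t2 := Tot_succ B m hB (j + 1)
  have p0 := hT j (by omega)
  have p1 := hT (j + 1) (by omega)
  have p2 := hT (j + 2) (by omega)
  have e0 : Phi B j = phi B j * Tot B j := by rw [phi]; field_simp
  have e1 : Phi B (j + 1) = phi B (j + 1) * Tot B (j + 1) := by rw [phi]; field_simp
  have e2 : Phi B (j + 2) = phi B (j + 2) * Tot B (j + 2) := by rw [phi]; field_simp
  rw [Real.log_div hN'.ne' hN.ne', e0, e1, e2] at key
  -- everything is a multiple of K = (m-j-1)(m-j) Tot_j
  set K : ℝ := ((m : ℝ) - (j + 1)) * ((m : ℝ) - j) * Tot B j with hK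
  have hKpos : 0 < K := by positivity
  have k1 : ((j : ℝ) + 1) * ((m : ℝ) - (j + 1)) * Tot B (j + 1) = K := by
    rw [hK]; linear_combination ((m : ℝ) - (j + 1)) * t1
  have k2 : ((j : ℝ) + 1) * (j + 2) * Tot B (j + 2) = K := by
    rw [← k1]
    push_cast at t2
    linear_combination ((j : ℝ) + 1) * t2
  have hfin : K * (2 * (phi B (j + 1) + Real.log ((m : ℝ) - (j + 1))) -
      (phi B j + (Real.log ((m : ℝ) - (j + 1)) + Real.log ((m : ℝ) - j))) +
      (Real.log ((Fintype.card α : ℝ) - j) - Real.log ((Fintype.card α : ℝ) - (j + 1)))) ≤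
      K * phi B (j + 2) := by
    have l1 : 2 * (((j : ℝ) + 1) * ((m : ℝ) - (j + 1))) *
        (phi B (j + 1) * Tot B (j + 1) + Real.log ((m : ℝ) - (j + 1)) * Tot B (j + 1)) =
        K * (2 * (phi B (j + 1) + Real.log ((m : ℝ) - (j + 1)))) := by
      linear_combination 2 * (phi B (j + 1) + Real.log ((m : ℝ) - (j + 1))) * k1
    have l2 : ((m : ℝ) - (j + 1)) * ((m : ℝ) - j) *
        (phi B j * Tot B j + (Real.log ((m : ℝ) - (j + 1)) + Real.log ((m : ℝ) - j)) * Tot B j) =
        K * (phi B j + (Real.log ((m : ℝ) - (j + 1)) + Real.log ((m : ℝ) - j))) := by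
      rw [hK]; ring
    have l3 : ((j : ℝ) + 1) * (j + 2) * (phi B (j + 2) * Tot B (j + 2)) =
        K * phi B (j + 2) := by
      linear_combination phi B (j + 2) * k2
    rw [l1, l2, l3] at key
    linarith
  have := le_of_mul_le_mul_left hfin hKpos
  unfold hh
  push_cast
  linarith

lemma shadow_eq (B : Finset (Finset α)) (m : ℕ) (hB : ∀ H ∈ B, H.card = m + 1) (f : ℕ → ℝ)
    (hf : f 0 = 0) :
    ∑ G ∈ ∂ B, f (bdeg B G) = ∑ G ∈ powersetCard m (univ : Finset α), f (bdeg B G) := by
  refine Finset.sum_subset ?_ ?_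
  · intro G hG
    rw [Finset.mem_shadow_iff] at hG
    obtain ⟨H, hH, e, he, rfl⟩ := hG
    rw [Finset.mem_powersetCard]
    exact ⟨Finset.subset_univ _, by rw [Finset.card_erase_of_mem he, hB H hH]; rfl⟩
  · intro G hG hG'
    have : bdeg B G = 0 := by
      rw [bdeg, Finset.card_eq_zero, Finset.filter_eq_empty_iff]
      intro H hH hsub
      apply hG'
      rw [Finset.mem_shadow_iff]
      have hGc := (Finset.mem_powersetCard.1 hG).2
      have hc : (H \ G).card = 1 := by
        rw [Finset.card_sdiff_of_subset hsub, hB H hH, hGc]; omega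
      obtain ⟨e, he⟩ := Finset.card_eq_one.1 hc
      have heH : e ∈ H \ G := by rw [he]; exact Finset.mem_singleton_self _
      rw [Finset.mem_sdiff] at heH
      refine ⟨H, hH, e, heH.1, ?_⟩
      symm
      refine Finset.eq_of_subset_of_card_le ?_ ?_
      · intro x hx
        rw [Finset.mem_erase]
        exact ⟨fun h => heH.2 (h ▸ hx), hsub hx⟩
      · rw [Finset.card_erase_of_mem heH.1, hB H hH, hGc]; rfl
    rw [this, hf]

/-- entropy isoperimetric inequality in the slice -/
theorem iso (B : Finset (Finset α)) (m : ℕ) (hm : 1 ≤ m) (hB : ∀ H ∈ B, H.card = m)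
    (hne : B.Nonempty) :
    (B.card : ℝ) * Real.log (((Fintype.card α).choose m : ℝ) / B.card) ≤
      ∑ G ∈ ∂ B, (bdeg B G : ℝ) *
        Real.log (((Fintype.card α - m + 1 : ℕ) : ℝ) / bdeg B G) := by
  obtain ⟨m, rfl⟩ : ∃ k, m = k + 1 := ⟨m - 1, by omega⟩
  have hBc : (0 : ℝ) < B.card := by exact_mod_cast hne.card_pos
  have hmN : m + 1 ≤ Fintype.card α := by
    obtain ⟨H, hH⟩ := hne
    rw [← hB H hH]; exact Finset.card_le_univ H
  -- monotonicity up to the last level
  have hmono : ∀ i, i ≤ m → ∀ j, j ≤ i → hh B (m + 1) j ≤ hh B (m + 1) i := by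
    intro i
    induction i with
    | zero => intro _ j hj; rw [Nat.le_zero.1 hj]
    | succ i ih =>
      intro hi j hj
      rcases Nat.lt_or_ge i j with h | h
      · rw [show j = i + 1 by omega]
      · exact (ih (by omega) j h).trans (hh_mono B (m + 1) hB hne i (by omega) hmN)
  have hsum : ∑ j ∈ range (m + 1), hh B (m + 1) j ≤ (m + 1 : ℝ) * hh B (m + 1) m := by
    calc _ ≤ ∑ _j ∈ range (m + 1), hh B (m + 1) m :=
          Finset.sum_le_sum fun j hj => hmono m le_rfl j (by simpa [Nat.lt_succ_iff] using hj)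
      _ = _ := by rw [Finset.sum_const, Finset.card_range, nsmul_eq_mul]; push_cast; ring
  -- evaluate the sum
  have hTm : Tot B (m + 1) = B.card := by
    rw [Tot_eq B (m + 1) hB (m + 1) le_rfl]; simp
  have hphi_top : phi B (m + 1) = 0 := by
    rw [phi, Phi_top B (m + 1) hB]; simp
  have hphi_zero : phi B 0 = Real.log B.card := by
    rw [phi, Phi_zero, Tot_zero]; field_simp
  have htel : ∑ j ∈ range (m + 1), (phi B (j + 1) - phi B j) = - Real.log B.card := by
    rw [Finset.sum_range_sub, hphi_top, hphi_zero]; ring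
  have hlogs : ∀ i, i ≤ m + 1 → ∑ j ∈ range i, (Real.log ((Fintype.card α : ℝ) - j) -
      Real.log (((m + 1 : ℕ) : ℝ) - j)) =
      Real.log ((Fintype.card α).descFactorial i) - Real.log ((m + 1).descFactorial i) := by
    intro i
    induction i with
    | zero => intro _; simp
    | succ i ih =>
      intro hi
      rw [Finset.sum_range_succ, ih (by omega), Nat.descFactorial_succ, Nat.descFactorial_succ]
      have q1 : (0 : ℝ) < ((Fintype.card α - i : ℕ) : ℝ) := by
        exact_mod_cast (by omega : 0 < Fintype.card α - i)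
      have q2 : (0 : ℝ) < (((m + 1) - i : ℕ) : ℝ) := by
        exact_mod_cast (by omega : 0 < (m + 1) - i)
      have q3 : (0 : ℝ) < ((Fintype.card α).descFactorial i : ℝ) := by
        exact_mod_cast Nat.pos_of_ne_zero (fun h => by
          rw [Nat.descFactorial_eq_zero_iff_lt] at h; omega)
      have q4 : (0 : ℝ) < ((m + 1).descFactorial i : ℝ) := by
        exact_mod_cast Nat.pos_of_ne_zero (fun h => by
          rw [Nat.descFactorial_eq_zero_iff_lt] at h; omega)
      rw [Nat.cast_mul, Nat.cast_mul, Real.log_mul q1.ne' q3.ne', Real.log_mul q2.ne' q4.ne',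
        Nat.cast_sub (by omega), Nat.cast_sub (by omega)]
      ring
  have hval : ∑ j ∈ range (m + 1), hh B (m + 1) j =
      Real.log (((Fintype.card α).choose (m + 1) : ℝ) / B.card) := by
    have s1 : ∑ j ∈ range (m + 1), hh B (m + 1) j =
        ∑ j ∈ range (m + 1), (Real.log ((Fintype.card α : ℝ) - j) -
          Real.log (((m + 1 : ℕ) : ℝ) - j)) + ∑ j ∈ range (m + 1), (phi B (j + 1) - phi B j) := by
      rw [← Finset.sum_add_distrib]
      refine Finset.sum_congr rfl fun j _ => ?_
      unfold hh; ring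
    rw [s1, hlogs (m + 1) le_rfl, htel, Nat.descFactorial_self,
      Nat.descFactorial_eq_factorial_mul_choose]
    have q1 : (0 : ℝ) < ((m + 1).factorial : ℝ) := by exact_mod_cast Nat.factorial_pos _
    have q2 : (0 : ℝ) < ((Fintype.card α).choose (m + 1) : ℝ) := by
      exact_mod_cast Nat.choose_pos hmN
    rw [Nat.cast_mul, Real.log_mul q1.ne' q2.ne', Real.log_div q2.ne' hBc.ne']
    ring
  rw [hval] at hsum
  -- evaluate the last term
  have hTm' : Tot B m = (m + 1) * B.card := by
    rw [Tot_eq B (m + 1) hB m (by omega)]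
    have : (m + 1).choose m = m + 1 := by
      rw [Nat.choose_symm_of_eq_add (show m + 1 = m + 1 from rfl)]; simp
    rw [this]; push_cast; ring
  have hlast : (m + 1 : ℝ) * B.card * hh B (m + 1) m =
      ∑ G ∈ ∂ B, (bdeg B G : ℝ) *
        Real.log (((Fintype.card α - (m + 1) + 1 : ℕ) : ℝ) / bdeg B G) := by
    rw [shadow_eq B m hB (fun b => (b : ℝ) *
      Real.log (((Fintype.card α - (m + 1) + 1 : ℕ) : ℝ) / b)) (by simp)]
    have hM : (((Fintype.card α - (m + 1) + 1 : ℕ) : ℝ)) = (Fintype.card α : ℝ) - m := by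
      rw [Nat.cast_add, Nat.cast_sub hmN]; push_cast; ring
    have hMpos : (0 : ℝ) < (Fintype.card α : ℝ) - m := by
      have : ((m + 1 : ℕ) : ℝ) ≤ Fintype.card α := by exact_mod_cast hmN
      push_cast at this; linarith
    have hterm : ∀ b : ℕ, (b : ℝ) * Real.log (((Fintype.card α - (m + 1) + 1 : ℕ) : ℝ) / b) =
        Real.log ((Fintype.card α : ℝ) - m) * b - (b : ℝ) * Real.log b := by
      intro b
      rw [hM]
      rcases Nat.eq_zero_or_pos b with h | h
      · simp [h]
      · rw [Real.log_div hMpos.ne' (by positivity)]; ring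
    simp only [hterm, Finset.sum_sub_distrib, ← Finset.mul_sum]
    have e1 : ∑ G ∈ powersetCard m (univ : Finset α), (bdeg B G : ℝ) = (m + 1) * B.card := hTm'
    have e2 : ∑ G ∈ powersetCard m (univ : Finset α), (bdeg B G : ℝ) * Real.log (bdeg B G) =
        phi B m * ((m + 1) * B.card) := by
      rw [← hTm', phi]
      have : Tot B m ≠ 0 := by rw [hTm']; positivity
      field_simp
      rfl
    rw [e1, e2]
    unfold hh
    rw [hphi_top, show (((m + 1 : ℕ) : ℝ) - m) = 1 by push_cast; ring, Real.log_one]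
    ring
  rw [← hlast]
  calc (B.card : ℝ) * Real.log (((Fintype.card α).choose (m + 1) : ℝ) / B.card)
      ≤ (B.card : ℝ) * ((m + 1 : ℝ) * hh B (m + 1) m) := mul_le_mul_of_nonneg_left hsum hBc.le
    _ = _ := by ring

end Abs

end Pool.Agent.HamSp
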